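import Pool.Agent.H438Z.FC.Exist

/-! Cross terms, the a priori estimate and exterior determination. -/

open MeasureTheory Metric Set Filter Topology
open scoped RealInnerProductSpace ContDiff

namespace Pool.Agent.H438Z.FC

variable {n : ℕ}

lemma Nice.mul_integrable {g v : E n → ℝ} {a b : ℝ} (hg : Nice g a b) (hv : Integrable v) :
    Integrable (fun x => g x * v x) :=
  hv.bdd_mul (c := b) hg.1.aestronglyMeasurable (Eventually.of_forall hg.abs_le)

lemma Nice.mul_memLp {g v : E n → ℝ} {a b : ℝ} (hg : Nice g a b) (hv : MemLp v 2 volume) :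
    MemLp (fun x => g x * v x) 2 volume := by
  refine (hv.const_mul b).of_le (hg.1.aestronglyMeasurable.mul hv.1)
    (Eventually.of_forall fun x => ?_)
  rw [norm_mul, norm_mul]
  gcongr
  exact (hg.abs_le x).trans (le_abs_self b)

lemma cross {s a b δ M : ℝ} {g : E n → ℝ} (hg : Nice g a b) {u v : E n → ℝ} (A : Set (E n))
    (hv0 : ∀ x, x ∉ A → v x = 0) (hu0 : ∀ᵐ y, u y ≠ 0 → ∀ x ∈ A, δ ≤ ‖x - y‖) (hδ : 0 < δ)
    (hvi : Integrable v) (hP : Pot δ ((n : ℝ) + 2 * s) (fun y => g y * u y) M) :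
    Bf s g u v = -2 * ∫ x, (g x * v x) * ∫ y, (g y * u y) * kd δ ((n : ℝ) + 2 * s) (x - y) := by
  have h1 := sep_symm (hg.mul_integrable hvi) hP
  rw [neg_mul, ← h1, ← integral_neg]
  unfold Bf
  apply integral_congr_ae
  filter_upwards [Measure.quasiMeasurePreserving_fst.ae hu0,
    Measure.quasiMeasurePreserving_snd.ae hu0] with p hp1 hp2
  rw [T_mul hg]
  have key : ∀ x y : E n, (u y ≠ 0 → ∀ x ∈ A, δ ≤ ‖x - y‖) →
      u y * v y = 0 ∧ v x * u y * kd δ ((n : ℝ) + 2 * s) (x - y) =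
        v x * u y * ‖x - y‖ ^ (-((n : ℝ) + 2 * s)) := by
    intro x y hy
    by_cases huy : u y = 0
    · simp [huy]
    constructor
    · by_cases hyA : y ∈ A
      · have := hy huy y hyA
        simp at this; linarith
      · simp [hv0 y hyA]
    · by_cases hxA : x ∈ A
      · rw [kd_of_le (hy huy x hxA)]
      · simp [hv0 x hxA]
  obtain ⟨a1, a2⟩ := key p.1 p.2 hp2
  obtain ⟨b1, b2⟩ := key p.2 p.1 hp1
  rw [norm_sub_rev p.2 p.1] at b2
  linear_combination (g p.1 * g p.2) * a2 + (g p.1 * g p.2) * b2 +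
    (g p.1 * g p.2 * ‖p.1 - p.2‖ ^ (-((n : ℝ) + 2 * s))) * (a1 + b1)

lemma far_of_zero {Ω A : Set (E n)} {δ : ℝ} (hfar : ∀ y ∈ Ω, ∀ x ∈ A, δ ≤ ‖x - y‖)
    {ψ : E n → ℝ} (h0 : ∀ᵐ x, x ∉ Ω → ψ x = 0) : ∀ᵐ y, ψ y ≠ 0 → ∀ x ∈ A, δ ≤ ‖x - y‖ := by
  filter_upwards [h0] with y hy hne
  by_cases hyΩ : y ∈ Ω
  · exact hfar y hyΩ
  · exact absurd (hy hyΩ) hne

lemma cross_bound {s a b δ : ℝ} (hs0 : 0 < s) {g : E n → ℝ} (hg : Nice g a b) {Ω A : Set (E n)}
    (hδ : 0 < δ) (hfar : ∀ y ∈ Ω, ∀ x ∈ A, δ ≤ ‖x - y‖) {ψ v : E n → ℝ}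
    (hψ : MemLp ψ 2 volume) (h0 : ∀ᵐ x, x ∉ Ω → ψ x = 0) (hv : IsTest A v) :
    |Bf s g ψ v| ≤ 2 * b ^ 2 * √(∫ y : E n, kd δ (2 * ((n : ℝ) + 2 * s)) y) * (∫ x, |v x|) *
      √(∫ x, ψ x ^ 2) := by
  have hb : 0 < b := lt_of_lt_of_le (hg.pos 0) (hg.2.2 0).2
  have hP := pot_L2 hδ (show (n : ℝ) < n + 2 * s by linarith) (hg.mul_memLp hψ)
  rw [cross hg A (fun x hx => hv.zero_of hx) (far_of_zero hfar h0) hδ hv.integrable hP]
  have h1 := (sep_bound (hg.mul_integrable hv.integrable) hP).2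
  have h2 : ∫ x, |g x * v x| ≤ b * ∫ x, |v x| := by
    rw [← integral_const_mul]
    refine integral_mono (hg.mul_integrable hv.integrable).abs (hv.integrable.abs.const_mul b)
      fun x => ?_
    simp only [abs_mul]
    gcongr; exact hg.abs_le x
  have h3 : √(∫ y, (g y * ψ y) ^ 2) ≤ b * √(∫ x, ψ x ^ 2) := by
    have h4 : ∫ y, (g y * ψ y) ^ 2 ≤ b ^ 2 * ∫ x, ψ x ^ 2 := by
      rw [← integral_const_mul]
      refine integral_mono (hg.mul_memLp hψ).integrable_sq (hψ.integrable_sq.const_mul _)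
        fun x => ?_
      simp only [mul_pow]
      gcongr
      · exact (hg.pos x).le
      · exact (hg.2.2 x).2
    calc _ ≤ √(b ^ 2 * ∫ x, ψ x ^ 2) := Real.sqrt_le_sqrt h4
      _ = _ := by rw [Real.sqrt_mul (sq_nonneg b), Real.sqrt_sq hb.le]
  have h5 : 0 ≤ ∫ x, |v x| := integral_nonneg fun x => abs_nonneg _
  rw [abs_mul, abs_neg, abs_two]
  calc _ ≤ 2 * ((∫ x, |g x * v x|) * (√(∫ y, (g y * ψ y) ^ 2) *
        √(∫ y : E n, kd δ (2 * ((n : ℝ) + 2 * s)) y))) := by gcongr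
    _ ≤ 2 * ((b * ∫ x, |v x|) * ((b * √(∫ x, ψ x ^ 2)) *
        √(∫ y : E n, kd δ (2 * ((n : ℝ) + 2 * s)) y))) := by gcongr
    _ = _ := by ring

lemma Sol.split {s a b : ℝ} {g : E n → ℝ} (hg : Nice g a b) {Ω : Set (E n)} {f u v : E n → ℝ}
    (hu : Sol s Ω g f u) (hf : InHs s f) (hv : InHs s v) :
    Bf s g u v = Bf s g f v + Bf s g (u - f) v := by
  rw [← Bf_add_left hg hf hu.2.1.1 hv]
  congr 1; abel

lemma apriori {s a b δ : ℝ} (hn : 1 ≤ n) (hs0 : 0 < s) (hs1 : s < 1) {g : E n → ℝ}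
    (hg : Nice g a b) {Ω A : Set (E n)} (hΩ : IsOpen Ω)
    (hbd : ∃ e : E n, ‖e‖ = 1 ∧ ∃ r : ℝ, ∀ x ∈ Ω, |⟪e, x⟫| ≤ r)
    (hδ : 0 < δ) (hfar : ∀ y ∈ Ω, ∀ x ∈ A, δ ≤ ‖x - y‖) :
    ∃ C : ℝ, ∀ f φ u : E n → ℝ, IsTest A f → IsTest A φ → Sol s Ω g f u →
      |Bf s g (u - f) φ| ≤ C * (∫ x, |φ x|) * ∫ x, |f x| := by
  obtain ⟨c, hc, hP⟩ := poincare hs0 hbd
  have ha := hg.2.1
  set κ := 2 * b ^ 2 * √(∫ y : E n, kd δ (2 * ((n : ℝ) + 2 * s)) y) with hκ
  have hκ0 : 0 ≤ κ := by positivity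
  refine ⟨κ * (κ / (a ^ 2 * c)), fun f φ u hf hφ hu => ?_⟩
  have hfs := hf.inHs hn hs0 hs1
  have hψ := hu.2.1
  have h0 := hψ.ae_zero hΩ
  have h1 := hu.split hg hfs hψ.1
  rw [hu.2.2 _ hψ, Bf_comm s g f] at h1
  have h2 := cross_bound hs0 hg hδ hfar hψ.1.1 h0 hf
  have h3 := cross_bound hs0 hg hδ hfar hψ.1.1 h0 hφ
  rw [← hκ] at h2 h3
  have h4 := hP _ hψ.1 h0
  have h5 : ∫ p, a ^ 2 * gagl s (u - f) p ∂(volume.prod volume) ≤ Bf s g (u - f) (u - f) := by
    refine integral_mono (hψ.1.2.const_mul _) (cs (T_memLp hg hψ.1) (T_memLp hg hψ.1)).1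
      fun p => ?_
    simpa only [sq] using le_T_sq hg (u - f) p
  rw [integral_const_mul] at h5
  set X := √(∫ x, (u - f) x ^ 2) with hX
  have hX0 : 0 ≤ X := Real.sqrt_nonneg _
  have hX2 : X ^ 2 = ∫ x, (u - f) x ^ 2 := Real.sq_sqrt (integral_nonneg fun x => sq_nonneg _)
  have hF : 0 ≤ ∫ x, |f x| := integral_nonneg fun x => abs_nonneg _
  have hΦ : 0 ≤ ∫ x, |φ x| := integral_nonneg fun x => abs_nonneg _
  have h6 : a ^ 2 * c * X ^ 2 ≤ κ * (∫ x, |f x|) * X := by
    have h7 : a ^ 2 * (c * X ^ 2) ≤ Bf s g (u - f) (u - f) := by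
      rw [hX2]; exact le_trans (by gcongr) h5
    have h8 := neg_abs_le (Bf s g (u - f) f)
    linarith
  have h9 : X ≤ κ / (a ^ 2 * c) * ∫ x, |f x| := by
    rcases eq_or_lt_of_le hX0 with h | h
    · rw [← h]; positivity
    · rw [div_mul_eq_mul_div, le_div_iff₀ (by positivity)]
      have : (X * (a ^ 2 * c)) * X ≤ (κ * ∫ x, |f x|) * X := by linarith
      exact le_of_mul_le_mul_right this h
  calc _ ≤ κ * (∫ x, |φ x|) * X := h3
    _ ≤ κ * (∫ x, |φ x|) * (κ / (a ^ 2 * c) * ∫ x, |f x|) := by gcongr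
    _ = _ := by ring

lemma ext_det {s a1 b1 a2 b2 C : ℝ} (hs0 : 0 < s) {g1 g2 : E n → ℝ}
    (hg1 : Nice g1 a1 b1) (hg2 : Nice g2 a2 b2) {A : Set (E n)} (hA : IsOpen A)
    (e : E n) (he : ‖e‖ = 1)
    (h : ∀ f φ : E n → ℝ, IsTest A f → IsTest A φ →
      |Bf s g1 f φ - Bf s g2 f φ| ≤ C * (∫ x, |φ x|) * ∫ x, |f x|) :
    ∀ᵐ z, z ∈ A → g1 z = g2 z := by
  set α : ℝ := (n : ℝ) + 2 * s with hα
  have hαn : (n : ℝ) < α := by linarith
  have hα0 : 0 < α := by positivity
  have hb1 : 0 < b1 := lt_of_lt_of_le (hg1.pos 0) (hg1.2.2 0).2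
  have hb2 : 0 < b2 := lt_of_lt_of_le (hg2.pos 0) (hg2.2.2 0).2
  have hloc : ∀ {g : E n → ℝ} {a b : ℝ}, Nice g a b → LocallyIntegrable g volume := by
    intro g a b hg
    exact (memLp_top_of_bound hg.1.aestronglyMeasurable b
      (Eventually.of_forall hg.abs_le)).locallyIntegrable le_top
  filter_upwards [IsUnifLocDoublingMeasure.ae_tendsto_average_norm_sub volume (hloc hg1) 1,
    IsUnifLocDoublingMeasure.ae_tendsto_average_norm_sub volume (hloc hg2) 1] with z hz1 hz2 hzA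
  have hδ : Tendsto (fun ε : ℝ => 2 * ε) (𝓝[>] 0) (𝓝[>] 0) := by
    apply tendsto_nhdsWithin_iff.2
    constructor
    · have : Continuous (fun ε : ℝ => 2 * ε) := by fun_prop
      simpa using (this.tendsto 0).mono_left nhdsWithin_le_nhds
    · filter_upwards [self_mem_nhdsWithin] with ε hε
      have : 0 < ε := hε
      simpa using this
  have hmem : ∀ᶠ ε : ℝ in 𝓝[>] 0, z ∈ closedBall z (1 * (2 * ε)) := by
    filter_upwards [self_mem_nhdsWithin] with ε hε
    have : 0 < ε := hε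
    exact mem_closedBall_self (by positivity)
  have t1 := hz1 (fun _ => z) _ hδ hmem
  have t2 := hz2 (fun _ => z) _ hδ hmem
  obtain ⟨R, hR, hRA⟩ := Metric.isOpen_iff.1 hA z hzA
  set d := g1 z * g1 z - g2 z * g2 z with hd
  have main : ∀ ε : ℝ, 0 < ε → 2 * ε < R → |d| * 3 ^ (-α) ≤ C / 2 * ε ^ α +
      2 * 8 ^ n * (b1 * (⨍ y in closedBall z (2 * ε), ‖g1 y - g1 z‖) +
        b2 * ⨍ y in closedBall z (2 * ε), ‖g2 y - g2 z‖) := by
    intro ε hε hεR
    let w0 : E n → ℝ := fun y => b1 * ‖g1 y - g1 z‖ + b2 * ‖g2 y - g2 z‖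
    have hw00 : ∀ y, 0 ≤ w0 y := fun y => by positivity
    have hw0i1 : IntegrableOn (fun y => ‖g1 y - g1 z‖) (closedBall z (2 * ε)) :=
      (((hloc hg1).sub (locallyIntegrable_const _)).integrableOn_isCompact
        (isCompact_closedBall _ _)).norm
    have hw0i2 : IntegrableOn (fun y => ‖g2 y - g2 z‖) (closedBall z (2 * ε)) :=
      (((hloc hg2).sub (locallyIntegrable_const _)).integrableOn_isCompact
        (isCompact_closedBall _ _)).norm
    have hw0i : IntegrableOn w0 (closedBall z (2 * ε)) := (hw0i1.const_mul b1).add (hw0i2.const_mul b2)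
    have hw0m : AEStronglyMeasurable w0 volume := by
      have := hg1.1; have := hg2.1
      exact Measurable.aestronglyMeasurable (by fun_prop)
    set Z := 8 ^ n * (b1 * (⨍ y in closedBall z (2 * ε), ‖g1 y - g1 z‖) +
        b2 * ⨍ y in closedBall z (2 * ε), ‖g2 y - g2 z‖) with hZ
    -- a normalised bump near a point at distance `ε` from `z`
    have bump : ∀ c : E n, ‖c - z‖ = ε → ∃ φ : E n → ℝ, IsTest A φ ∧ (∀ x, 0 ≤ φ x) ∧
        ∫ x, φ x = 1 ∧ (∃ M, ∀ x, |φ x| ≤ M) ∧ (∀ x, φ x ≠ 0 → ‖x - c‖ < ε / 2) ∧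
        Integrable (fun x => w0 x * φ x) ∧ ∫ x, w0 x * φ x ≤ Z := by
      intro c hc
      let β : ContDiffBump c := ⟨ε / 4, ε / 2, by positivity, by linarith⟩
      have hsub : closedBall c (ε / 2) ⊆ closedBall z (2 * ε) := by
        apply closedBall_subset_closedBall'
        rw [dist_eq_norm, hc]; linarith
      have hT : IsTest A (β.normed volume) := by
        refine ⟨β.contDiff_normed, β.hasCompactSupport_normed, ?_⟩
        rw [β.tsupport_normed_eq]
        exact hsub.trans ((closedBall_subset_ball hεR).trans hRA)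
      have hsupp : ∀ x, β.normed volume x ≠ 0 → ‖x - c‖ < ε / 2 := by
        intro x hx
        have : x ∈ Function.support (β.normed volume) := hx
        rw [β.support_normed_eq] at this
        rwa [mem_ball, dist_eq_norm] at this
      have hv : 0 < volume.real (closedBall (0 : E n) 1) :=
        ENNReal.toReal_pos (measure_closedBall_pos _ _ one_pos).ne' measure_closedBall_lt_top.ne
      have hle : ∀ x, w0 x * β.normed volume x ≤
          (closedBall z (2 * ε)).indicator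
            (fun x => (volume.real (closedBall c (ε / 4)))⁻¹ * w0 x) x := by
        intro x
        by_cases hx : x ∈ closedBall z (2 * ε)
        · rw [indicator_of_mem hx, mul_comm]
          have := β.normed_le_div_measure_closedBall_rIn volume x
          rw [one_div] at this
          exact mul_le_mul_of_nonneg_right this (hw00 x)
        · rw [indicator_of_notMem hx]
          have : β.normed volume x = 0 := by
            by_contra hne
            exact hx (hsub (by rw [mem_closedBall, dist_eq_norm]; exact (hsupp x hne).le))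
          simp [this]
      have hI : Integrable ((closedBall z (2 * ε)).indicator
            (fun x => (volume.real (closedBall c (ε / 4)))⁻¹ * w0 x)) := by
        rw [integrable_indicator_iff measurableSet_closedBall]
        exact hw0i.const_mul _
      have hI2 : Integrable (fun x => w0 x * β.normed volume x) := by
        refine hI.mono' (hw0m.mul β.continuous_normed.aestronglyMeasurable)
          (Eventually.of_forall fun x => ?_)
        rw [Real.norm_of_nonneg (mul_nonneg (hw00 x) (β.nonneg_normed x))]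
        exact hle x
      refine ⟨β.normed volume, hT, β.nonneg_normed, β.integral_normed, hT.bdd, hsupp, hI2, ?_⟩
      refine (integral_mono hI2 hI hle).trans (le_of_eq ?_)
      rw [integral_indicator measurableSet_closedBall, integral_const_mul, hZ, setAverage_eq,
        setAverage_eq, Measure.addHaar_real_closedBall' _ _ (by positivity : 0 ≤ ε / 4),
        Measure.addHaar_real_closedBall' _ _ (by positivity : 0 ≤ 2 * ε)]
      simp only [w0]
      rw [integral_add (hw0i1.const_mul b1) (hw0i2.const_mul b2), integral_const_mul,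
        integral_const_mul]
      simp only [finrank_euclideanSpace, Fintype.card_fin, smul_eq_mul]
      have e8 : (2 * ε) ^ n = 8 ^ n * (ε / 4) ^ n := by rw [← mul_pow]; congr 1; ring
      rw [e8]
      field_simp
    obtain ⟨φ, hφ, hφ0, hφ1, -, hφs, hφI, hφZ⟩ := bump (z + ε • e)
      (by rw [add_sub_cancel_left, norm_smul, he, mul_one, Real.norm_of_nonneg hε.le])
    obtain ⟨f, hf, hf0, hf1, ⟨Mf, hMf⟩, hfs, hfI, hfZ⟩ := bump (z - ε • e)
      (by rw [sub_sub_cancel_left, norm_neg, norm_smul, he, mul_one, Real.norm_of_nonneg hε.le])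
    have hdist : ∀ x y, ‖x - (z + ε • e)‖ < ε / 2 → ‖y - (z - ε • e)‖ < ε / 2 →
        ε ≤ ‖x - y‖ ∧ ‖x - y‖ ≤ 3 * ε := by
      intro x y hx hy
      have h2 : ‖(2 * ε) • e‖ = 2 * ε := by
        rw [norm_smul, he, mul_one, Real.norm_of_nonneg (by positivity)]
      have e1 : x - y = (2 * ε) • e + ((x - (z + ε • e)) - (y - (z - ε • e))) := by
        rw [mul_smul, two_smul]; abel
      have h3 := norm_sub_le (x - (z + ε • e)) (y - (z - ε • e))
      have h4 := norm_add_le ((2 * ε) • e) ((x - (z + ε • e)) - (y - (z - ε • e)))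
      have h5 := norm_sub_le (x - y) ((x - (z + ε • e)) - (y - (z - ε • e)))
      have e2 : x - y - ((x - (z + ε • e)) - (y - (z - ε • e))) = (2 * ε) • e := by
        rw [mul_smul, two_smul]; abel
      rw [e2, h2] at h5
      rw [← e1, h2] at h4
      constructor <;> linarith
    have hform : ∀ {g : E n → ℝ} {a b : ℝ}, Nice g a b →
        Integrable (fun p : E n × E n => (g p.1 * φ p.1) * ((g p.2 * f p.2) * kd ε α (p.1 - p.2)))
          (volume.prod volume) ∧
        Bf s g f φ = -2 * ∫ p : E n × E n,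
          (g p.1 * φ p.1) * ((g p.2 * f p.2) * kd ε α (p.1 - p.2)) ∂(volume.prod volume) := by
      intro g a b hg
      have hP : Pot ε α (fun y => g y * f y) ((b * Mf) * ∫ y : E n, kd ε α y) := by
        refine pot_bdd hε hαn (hg.mul_integrable hf.integrable).1 fun y => ?_
        rw [abs_mul]
        exact mul_le_mul (hg.abs_le y) (hMf y) (abs_nonneg _) ((abs_nonneg _).trans (hg.abs_le y))
      have h1 := sep (hg.mul_integrable hφ.integrable) hP
      refine ⟨h1.1, ?_⟩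
      rw [h1.2]
      refine cross hg {x | ‖x - (z + ε • e)‖ < ε / 2} (fun x hx => ?_)
        (Eventually.of_forall fun y hy x hx => (hdist x y hx (hfs y hy)).1) hε hφ.integrable hP
      by_contra hne
      exact hx (hφs x hne)
    obtain ⟨i1, f1⟩ := hform hg1
    obtain ⟨i2, f2⟩ := hform hg2
    have hB := h f φ hf hφ
    simp only [abs_of_nonneg (hφ0 _), abs_of_nonneg (hf0 _), hφ1, hf1, mul_one] at hB
    obtain ⟨σ, hσ, hσd⟩ : ∃ σ : ℝ, |σ| = 1 ∧ |d| = σ * d := by
      rcases le_total 0 d with h | h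
      · exact ⟨1, by simp, by simp [abs_of_nonneg h]⟩
      · exact ⟨-1, by simp, by simp [abs_of_nonpos h]⟩
    have hpt : ∀ p : E n × E n, |d| * (3 * ε) ^ (-α) * (φ p.1 * f p.2) ≤
        σ * ((g1 p.1 * φ p.1) * ((g1 p.2 * f p.2) * kd ε α (p.1 - p.2)) -
          (g2 p.1 * φ p.1) * ((g2 p.2 * f p.2) * kd ε α (p.1 - p.2))) +
        ε ^ (-α) * ((w0 p.1 * φ p.1) * f p.2 + φ p.1 * (w0 p.2 * f p.2)) := by
      intro p
      by_cases h1 : φ p.1 = 0
      · simp [h1]
      by_cases h2 : f p.2 = 0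
      · simp [h2]
      obtain ⟨k1, k2⟩ := hdist _ _ (hφs _ h1) (hfs _ h2)
      rw [kd_of_le k1]
      set K := ‖p.1 - p.2‖ ^ (-α) with hK
      have hK1 : (3 * ε) ^ (-α) ≤ K :=
        Real.rpow_le_rpow_of_nonpos (by linarith) k2 (by linarith)
      have hK2 : K ≤ ε ^ (-α) := Real.rpow_le_rpow_of_nonpos hε k1 (by linarith)
      have hK0 : 0 ≤ K := by positivity
      have hw : 0 ≤ φ p.1 * f p.2 := mul_nonneg (hφ0 _) (hf0 _)
      set G := g1 p.1 * g1 p.2 - g2 p.1 * g2 p.2 with hG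
      have hGd : |d - G| ≤ w0 p.1 + w0 p.2 := by
        have e1 : d - G = -(g1 p.2 * (g1 p.1 - g1 z)) - g1 z * (g1 p.2 - g1 z) +
            g2 p.2 * (g2 p.1 - g2 z) + g2 z * (g2 p.2 - g2 z) := by
          rw [hd, hG]; ring
        have q : ∀ {g : E n → ℝ} {a b : ℝ}, Nice g a b → ∀ x t, |g x * t| ≤ b * ‖t‖ := by
          intro g a b hg x t
          rw [abs_mul, Real.norm_eq_abs]; gcongr; exact hg.abs_le x
        have q1 := abs_le.1 (q hg1 p.2 (g1 p.1 - g1 z))
        have q2 := abs_le.1 (q hg1 z (g1 p.2 - g1 z))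
        have q3 := abs_le.1 (q hg2 p.2 (g2 p.1 - g2 z))
        have q4 := abs_le.1 (q hg2 z (g2 p.2 - g2 z))
        rw [e1, abs_le]
        simp only [w0]
        constructor <;> linarith [q1.1, q1.2, q2.1, q2.2, q3.1, q3.2, q4.1, q4.2]
      have h3 : |d| ≤ σ * G + (w0 p.1 + w0 p.2) := by
        have h4 : σ * (d - G) ≤ |d - G| := by
          calc σ * (d - G) ≤ |σ * (d - G)| := le_abs_self _
            _ = |d - G| := by rw [abs_mul, hσ, one_mul]
        rw [hσd]; linarith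
      have hw0s : 0 ≤ w0 p.1 + w0 p.2 := add_nonneg (hw00 _) (hw00 _)
      calc |d| * (3 * ε) ^ (-α) * (φ p.1 * f p.2) ≤ |d| * K * (φ p.1 * f p.2) := by gcongr
        _ ≤ (σ * G + (w0 p.1 + w0 p.2)) * K * (φ p.1 * f p.2) := by gcongr
        _ = σ * G * K * (φ p.1 * f p.2) + (w0 p.1 + w0 p.2) * K * (φ p.1 * f p.2) := by ring
        _ ≤ σ * G * K * (φ p.1 * f p.2) + (w0 p.1 + w0 p.2) * ε ^ (-α) * (φ p.1 * f p.2) := by
            gcongr
        _ = _ := by rw [hG]; ring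
    have j1 := hφI.mul_prod hf.integrable
    have j2 := hφ.integrable.mul_prod hfI
    have j12 : Integrable (fun p : E n × E n => (w0 p.1 * φ p.1) * f p.2 + φ p.1 * (w0 p.2 * f p.2))
      (volume.prod volume) := j1.add j2
    have i12 : Integrable (fun p : E n × E n =>
      (g1 p.1 * φ p.1) * ((g1 p.2 * f p.2) * kd ε α (p.1 - p.2)) -
          (g2 p.1 * φ p.1) * ((g2 p.2 * f p.2) * kd ε α (p.1 - p.2))) (volume.prod volume) :=
      i1.sub i2
    have hint := integral_mono ((hφ.integrable.mul_prod hf.integrable).const_mul _)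
      ((i12.const_mul σ).add (j12.const_mul (ε ^ (-α)))) hpt
    simp only [Pi.add_apply] at hint
    rw [integral_add (i12.const_mul σ) (j12.const_mul _), integral_const_mul, integral_const_mul,
      integral_const_mul, integral_sub i1 i2, integral_add j1 j2, integral_prod_mul φ f,
      integral_prod_mul (fun x => w0 x * φ x) f, integral_prod_mul φ (fun x => w0 x * f x),
      hφ1, hf1] at hint
    set I1 := ∫ p : E n × E n, (g1 p.1 * φ p.1) * ((g1 p.2 * f p.2) * kd ε α (p.1 - p.2))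
      ∂(volume.prod volume)
    set I2 := ∫ p : E n × E n, (g2 p.1 * φ p.1) * ((g2 p.2 * f p.2) * kd ε α (p.1 - p.2))
      ∂(volume.prod volume)
    have hI : σ * (I1 - I2) ≤ C / 2 := by
      have h1 : Bf s g1 f φ - Bf s g2 f φ = -2 * (I1 - I2) := by rw [f1, f2]; ring
      rw [h1, abs_mul, abs_neg, abs_two] at hB
      calc σ * (I1 - I2) ≤ |σ * (I1 - I2)| := le_abs_self _
        _ = |I1 - I2| := by rw [abs_mul, hσ, one_mul]
        _ ≤ C / 2 := by linarith
    have hεα : 0 < ε ^ (-α) := by positivity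
    have h7 : |d| * 3 ^ (-α) * ε ^ (-α) ≤ C / 2 + ε ^ (-α) * (2 * Z) := by
      rw [Real.mul_rpow (by norm_num) hε.le] at hint
      have : ε ^ (-α) * ((∫ x, w0 x * φ x) * 1 + 1 * ∫ x, w0 x * f x) ≤ ε ^ (-α) * (2 * Z) := by
        gcongr; linarith
      linarith
    have h8 : ε ^ (-α) * ε ^ α = 1 := by rw [← Real.rpow_add hε]; simp
    have h9 := mul_le_mul_of_nonneg_right h7 (by positivity : 0 ≤ ε ^ α)
    calc |d| * 3 ^ (-α) = |d| * 3 ^ (-α) * ε ^ (-α) * ε ^ α := by rw [mul_assoc _ (ε ^ (-α)), h8, mul_one]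
      _ ≤ (C / 2 + ε ^ (-α) * (2 * Z)) * ε ^ α := h9
      _ = C / 2 * ε ^ α + (ε ^ (-α) * ε ^ α) * (2 * Z) := by ring
      _ = _ := by rw [h8, hZ]; ring
  have tz : Tendsto (fun ε : ℝ => C / 2 * ε ^ α +
      2 * 8 ^ n * (b1 * (⨍ y in closedBall z (2 * ε), ‖g1 y - g1 z‖) +
        b2 * ⨍ y in closedBall z (2 * ε), ‖g2 y - g2 z‖)) (𝓝[>] 0) (𝓝 0) := by
    have h1 : Tendsto (fun ε : ℝ => ε ^ α) (𝓝[>] 0) (𝓝 0) := by
      have := (Real.continuousAt_rpow_const 0 α (Or.inr hα0.le)).tendsto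
      rw [Real.zero_rpow hα0.ne'] at this
      exact this.mono_left nhdsWithin_le_nhds
    simpa using (h1.const_mul (C / 2)).add (((t1.const_mul b1).add (t2.const_mul b2)).const_mul
      (2 * 8 ^ n))
  have hle : |d| * 3 ^ (-α) ≤ 0 := by
    refine ge_of_tendsto tz ?_
    filter_upwards [Ioo_mem_nhdsGT (show (0 : ℝ) < R / 2 by positivity)] with ε hε
    exact main ε hε.1 (by linarith [hε.2])
  have h3 : (0 : ℝ) < 3 ^ (-α) := by positivity
  have hd0 : d = 0 := by
    have : |d| ≤ 0 := by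
      by_contra hne
      have := mul_pos (not_le.1 hne) h3
      linarith
    exact abs_nonpos_iff.1 this
  have p1 := hg1.pos z
  have p2 := hg2.pos z
  have : (g1 z - g2 z) * (g1 z + g2 z) = 0 := by rw [← hd0, hd]; ring
  rcases mul_eq_zero.1 this with h | h <;> linarith

end Pool.Agent.H438Z.FC
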