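import Mathlib

/-! Definitions for the inverse fractional conductivity problem. -/

open MeasureTheory
open scoped ContDiff

namespace Pool.Agent.H438Z.FC

/-- Euclidean space `ℝⁿ` (with Lebesgue measure `volume`). -/
abbrev E (n : ℕ) : Type := EuclideanSpace ℝ (Fin n)

variable {n : ℕ}

/-- The normalising constant `C_{n,s} = 4^s Γ(n/2+s) / (π^{n/2} |Γ(-s)|)` of `(-Δ)^s`. -/
noncomputable def cns (n : ℕ) (s : ℝ) : ℝ :=
  4 ^ s * Real.Gamma (n / 2 + s) / (Real.pi ^ ((n : ℝ) / 2) * |Real.Gamma (-s)|)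

/-- The Gagliardo integrand `(u(x)-u(y))² / |x-y|^{n+2s}`. -/
noncomputable def gagl (s : ℝ) (u : E n → ℝ) (p : E n × E n) : ℝ :=
  (u p.1 - u p.2) ^ 2 / ‖p.1 - p.2‖ ^ ((n : ℝ) + 2 * s)

/-- `u ∈ H^s(ℝⁿ)`: `u ∈ L²` with finite Gagliardo seminorm. -/
def InHs (s : ℝ) (u : E n → ℝ) : Prop :=
  MemLp u 2 volume ∧ Integrable (gagl s u) (volume.prod volume)

/-- The square of the `H^s` norm: `‖u‖_{L²}² + [u]_{H^s}²`. -/
noncomputable def hsNormSq (s : ℝ) (u : E n → ℝ) : ℝ :=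
  (∫ x, u x ^ 2) + ∫ p, gagl s u p ∂(volume.prod volume)

/-- `φ ∈ C_c^∞(U)`. -/
def IsTest (U : Set (E n)) (φ : E n → ℝ) : Prop :=
  ContDiff ℝ ∞ φ ∧ HasCompactSupport φ ∧ tsupport φ ⊆ U

/-- `u` lies in the closure of `C_c^∞(Ω)` in `H^s(ℝⁿ)`. -/
def InHsTilde (s : ℝ) (Ω : Set (E n)) (u : E n → ℝ) : Prop :=
  InHs s u ∧ ∀ ε : ℝ, 0 < ε → ∃ φ : E n → ℝ, IsTest Ω φ ∧ hsNormSq s (u - φ) < ε

/-- `γ` is measurable and `a ≤ γ ≤ b` almost everywhere for some `0 < a < b`. -/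
def UnifElliptic (γ : E n → ℝ) : Prop :=
  AEMeasurable γ volume ∧ ∃ a b : ℝ, 0 < a ∧ a < b ∧ ∀ᵐ x, a ≤ γ x ∧ γ x ≤ b

/-- The bilinear form `B_γ(u,v)`. -/
noncomputable def bform (s : ℝ) (γ u v : E n → ℝ) : ℝ :=
  cns n s / 2 * ∫ p : E n × E n,
    √(γ p.1) * √(γ p.2) / ‖p.1 - p.2‖ ^ ((n : ℝ) + 2 * s) * (u p.1 - u p.2) * (v p.1 - v p.2)
      ∂(volume.prod volume)

/-- `u` is the weak solution `u_f` of the exterior value problem with exterior datum `f`. -/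
def IsSol (s : ℝ) (Ω : Set (E n)) (γ f u : E n → ℝ) : Prop :=
  InHs s u ∧ InHsTilde s Ω (u - f) ∧ ∀ φ : E n → ℝ, InHsTilde s Ω φ → bform s γ u φ = 0

end Pool.Agent.H438Z.FC
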