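import Pool.Agent.H438Z.FC.Form

/-! Existence of weak solutions by orthogonal projection. -/

open MeasureTheory Metric Set Filter Topology
open scoped RealInnerProductSpace ContDiff

namespace Pool.Agent.H438Z.FC

variable {n : ℕ}

/-- solution for the form without constant -/
def Sol (s : ℝ) (Ω : Set (E n)) (g f u : E n → ℝ) : Prop :=
  InHs s u ∧ InHsTilde s Ω (u - f) ∧ ∀ φ : E n → ℝ, InHsTilde s Ω φ → Bf s g u φ = 0

lemma L2_inner {X : Type*} [MeasurableSpace X] {μ : Measure X} (F G : Lp ℝ 2 μ) {a b : X → ℝ}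
    (ha : F =ᵐ[μ] a) (hb : G =ᵐ[μ] b) : ⟪F, G⟫ = ∫ x, a x * b x ∂μ := by
  rw [L2.inner_def]
  apply integral_congr_ae
  filter_upwards [ha, hb] with x h1 h2
  rw [h1, h2]; simp [mul_comm]

lemma L2_normsq {X : Type*} [MeasurableSpace X] {μ : Measure X} (F : Lp ℝ 2 μ) {a : X → ℝ}
    (ha : F =ᵐ[μ] a) : ‖F‖ ^ 2 = ∫ x, a x ^ 2 ∂μ := by
  rw [← real_inner_self_eq_norm_sq, L2_inner F F ha ha]
  simp only [sq]

lemma IsTest.add {U : Set (E n)} {φ ψ : E n → ℝ} (h : IsTest U φ) (h' : IsTest U ψ) :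
    IsTest U (φ + ψ) :=
  ⟨h.1.add h'.1, h.2.1.add h'.2.1, (tsupport_add φ ψ).trans (union_subset h.2.2 h'.2.2)⟩

lemma IsTest.smul {U : Set (E n)} {φ : E n → ℝ} (h : IsTest U φ) (c : ℝ) :
    IsTest U (c • φ) :=
  ⟨h.1.const_smul c, h.2.1.smul_left, (tsupport_smul_subset_right (fun _ => c) φ).trans h.2.2⟩

lemma isTest_zero (U : Set (E n)) : IsTest U 0 :=
  ⟨contDiff_const, HasCompactSupport.zero, by simp⟩

lemma exists_sol {s a b : ℝ} (hn : 1 ≤ n) (hs0 : 0 < s) (hs1 : s < 1) {Ω : Set (E n)}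
    (hbd : ∃ e : E n, ‖e‖ = 1 ∧ ∃ r : ℝ, ∀ x ∈ Ω, |⟪e, x⟫| ≤ r)
    {g : E n → ℝ} (hg : Nice g a b) {f : E n → ℝ} (hf : InHs s f) :
    ∃ u, Sol s Ω g f u := by
  obtain ⟨c, hc, hP⟩ := poincare hs0 hbd
  have ha := hg.2.1
  let ν : Measure (E n × E n) := volume.prod volume
  let M : Submodule ℝ (Lp ℝ 2 ν) :=
    { carrier := {F | ∃ φ, IsTest Ω φ ∧ F =ᵐ[ν] T s g φ}
      add_mem' := by
        rintro F G ⟨φ, hφ, hF⟩ ⟨ψ, hψ, hG⟩
        refine ⟨φ + ψ, hφ.add hψ, ?_⟩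
        rw [T_add]
        filter_upwards [Lp.coeFn_add F G, hF, hG] with p h1 h2 h3
        rw [h1, Pi.add_apply, Pi.add_apply, h2, h3]
      zero_mem' := by
        refine ⟨0, isTest_zero Ω, ?_⟩
        filter_upwards [Lp.coeFn_zero ℝ 2 ν] with p h1
        rw [h1]; simp [T]
      smul_mem' := by
        rintro c F ⟨φ, hφ, hF⟩
        refine ⟨c • φ, hφ.smul c, ?_⟩
        rw [T_smul]
        filter_upwards [Lp.coeFn_smul c F, hF] with p h1 h2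
        rw [h1, Pi.smul_apply, Pi.smul_apply, h2] }
  let N := M.topologicalClosure
  let F : Lp ℝ 2 ν := (T_memLp hg hf).toLp
  have hF : F =ᵐ[ν] T s g f := MemLp.coeFn_toLp _
  obtain ⟨P, hPN, Q, hQ, hFPQ⟩ := N.exists_add_mem_mem_orthogonal F
  have hPc : P ∈ closure (M : Set (Lp ℝ 2 ν)) := hPN
  obtain ⟨G, hGM, hGP⟩ := mem_closure_iff_seq_limit.1 hPc
  choose φ hφ hGφ using hGM
  have hφs : ∀ k, InHs s (φ k) := fun k => (hφ k).inHs hn hs0 hs1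
  let Φ : ℕ → Lp ℝ 2 (volume : Measure (E n)) := fun k => (hφs k).1.toLp
  have hΦ : ∀ k, Φ k =ᵐ[volume] φ k := fun k => MemLp.coeFn_toLp _
  have hest : ∀ k l, c * a ^ 2 * ‖Φ k - Φ l‖ ^ 2 ≤ ‖G k - G l‖ ^ 2 := by
    intro k l
    have h1 : ‖Φ k - Φ l‖ ^ 2 = ∫ x, (φ k - φ l) x ^ 2 := by
      apply L2_normsq
      filter_upwards [Lp.coeFn_sub (Φ k) (Φ l), hΦ k, hΦ l] with x h1 h2 h3
      rw [h1, Pi.sub_apply, Pi.sub_apply, h2, h3]
    have h2 : ‖G k - G l‖ ^ 2 = ∫ p, T s g (φ k - φ l) p ^ 2 ∂ν := by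
      apply L2_normsq
      rw [T_sub]
      filter_upwards [Lp.coeFn_sub (G k) (G l), hGφ k, hGφ l] with x h1 h2 h3
      rw [h1, Pi.sub_apply, Pi.sub_apply, h2, h3]
    have h3 := (hφs k).sub (hφs l)
    have h4 := hP _ h3 (Eventually.of_forall fun x hx => by
      simp [(hφ k).zero_of hx, (hφ l).zero_of hx])
    have h5 : ∫ p, a ^ 2 * gagl s (φ k - φ l) p ∂ν ≤ ∫ p, T s g (φ k - φ l) p ^ 2 ∂ν :=
      integral_mono (h3.2.const_mul _) (T_memLp hg h3).integrable_sq fun p => le_T_sq hg _ p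
    rw [integral_const_mul] at h5
    rw [h1, h2]
    calc c * a ^ 2 * ∫ x, (φ k - φ l) x ^ 2 = a ^ 2 * (c * ∫ x, (φ k - φ l) x ^ 2) := by ring
      _ ≤ a ^ 2 * ∫ p, gagl s (φ k - φ l) p ∂ν := by gcongr
      _ ≤ _ := h5
  have hcau : CauchySeq Φ := by
    have hG := hGP.cauchySeq
    rw [Metric.cauchySeq_iff] at hG ⊢
    intro ε hε
    obtain ⟨K, hK⟩ := hG (√(c * a ^ 2) * ε) (by positivity)
    refine ⟨K, fun k hk l hl => ?_⟩
    have h1 := hK k hk l hl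
    rw [dist_eq_norm] at h1 ⊢
    have h2 := hest k l
    have h3 : ‖G k - G l‖ ^ 2 < c * a ^ 2 * ε ^ 2 := by
      have h4 : (√(c * a ^ 2) * ε) ^ 2 = c * a ^ 2 * ε ^ 2 := by
        rw [mul_pow, Real.sq_sqrt (by positivity)]
      rw [← h4]; gcongr
    have h5 : ‖Φ k - Φ l‖ ^ 2 < ε ^ 2 :=
      lt_of_mul_lt_mul_left (lt_of_le_of_lt h2 h3) (by positivity)
    exact lt_of_pow_lt_pow_left₀ 2 hε.le h5
  obtain ⟨Ψ, hΨ⟩ := cauchySeq_tendsto_of_complete hcau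
  have hTP : T s g Ψ =ᵐ[ν] P := by
    obtain ⟨n1, hn1, hae1⟩ := (tendstoInMeasure_of_tendsto_Lp hΨ).exists_seq_tendsto_ae
    obtain ⟨n2, hn2, hae2⟩ := (tendstoInMeasure_of_tendsto_Lp
      (hGP.comp hn1.tendsto_atTop)).exists_seq_tendsto_ae
    have hae1' : ∀ᵐ x, Tendsto (fun i => φ (n1 i) x) atTop (𝓝 (Ψ x)) := by
      filter_upwards [hae1, ae_all_iff.2 hΦ] with x h1 h2
      simpa only [h2] using h1
    filter_upwards [Measure.quasiMeasurePreserving_fst.ae hae1',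
      Measure.quasiMeasurePreserving_snd.ae hae1', hae2, ae_all_iff.2 hGφ] with p h1 h2 h3 h4
    simp only [Function.comp_apply, h4] at h3
    have h5 : Tendsto (fun i => T s g (φ (n1 (n2 i))) p) atTop (𝓝 (T s g Ψ p)) :=
      ((h1.comp hn2.tendsto_atTop).sub (h2.comp hn2.tendsto_atTop)).const_mul _
    exact tendsto_nhds_unique h5 h3
  have hΨs : InHs s Ψ := inHs_of_T hg (Lp.memLp Ψ) ((Lp.memLp P).ae_eq hTP.symm)
  have hu : InHs s (f - ⇑Ψ) := hf.sub hΨs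
  refine ⟨f - ⇑Ψ, hu, ⟨hu.sub hf, fun ε hε => ?_⟩, fun ψ hψ => ?_⟩
  · have t1 : Tendsto (fun k => ‖Φ k - Ψ‖ ^ 2 + (a ^ 2)⁻¹ * ‖G k - P‖ ^ 2) atTop (𝓝 0) := by
      have h1 := (tendsto_iff_norm_sub_tendsto_zero.1 hΨ).pow 2
      have h2 := ((tendsto_iff_norm_sub_tendsto_zero.1 hGP).pow 2).const_mul (a ^ 2)⁻¹
      simpa using h1.add h2
    obtain ⟨k, hk⟩ := (t1.eventually (gt_mem_nhds hε)).exists
    refine ⟨(-1 : ℝ) • φ k, (hφ k).smul _, lt_of_le_of_lt ?_ hk⟩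
    have e : f - ⇑Ψ - f - (-1 : ℝ) • φ k = φ k - ⇑Ψ := by
      funext x; simp only [Pi.sub_apply, Pi.smul_apply, smul_eq_mul]; ring
    rw [e]
    have h1 : ‖Φ k - Ψ‖ ^ 2 = ∫ x, (φ k - ⇑Ψ) x ^ 2 := by
      apply L2_normsq
      filter_upwards [Lp.coeFn_sub (Φ k) Ψ, hΦ k] with x h1 h2
      rw [h1, Pi.sub_apply, Pi.sub_apply, h2]
    have h2 : ‖G k - P‖ ^ 2 = ∫ p, T s g (φ k - ⇑Ψ) p ^ 2 ∂ν := by
      apply L2_normsq
      rw [T_sub]
      filter_upwards [Lp.coeFn_sub (G k) P, hGφ k, hTP] with x h1 h2 h3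
      rw [h1, Pi.sub_apply, Pi.sub_apply, h2, h3]
    have h3 := (hφs k).sub hΨs
    have h5 : ∫ p, a ^ 2 * gagl s (φ k - ⇑Ψ) p ∂ν ≤ ∫ p, T s g (φ k - ⇑Ψ) p ^ 2 ∂ν :=
      integral_mono (h3.2.const_mul _) (T_memLp hg h3).integrable_sq fun p => le_T_sq hg _ p
    rw [integral_const_mul] at h5
    unfold hsNormSq
    rw [h1, h2]
    gcongr
    rw [← div_eq_inv_mul, le_div_iff₀ (by positivity), mul_comm]
    exact h5
  · let R : Lp ℝ 2 ν := (T_memLp hg hψ.1).toLp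
    have hR : R =ᵐ[ν] T s g ψ := MemLp.coeFn_toLp _
    have hRN : R ∈ N := by
      change R ∈ closure (M : Set (Lp ℝ 2 ν))
      rw [Metric.mem_closure_iff]
      intro ε hε
      obtain ⟨χ, hχ, hlt⟩ := hψ.2 (ε ^ 2 / (b ^ 2 + 1)) (by positivity)
      have hχs := hχ.inHs hn hs0 hs1
      refine ⟨(T_memLp hg hχs).toLp, ⟨χ, hχ, MemLp.coeFn_toLp _⟩, ?_⟩
      rw [dist_eq_norm]
      have h2 : ‖R - (T_memLp hg hχs).toLp‖ ^ 2 = ∫ p, T s g (ψ - χ) p ^ 2 ∂ν := by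
        apply L2_normsq
        rw [T_sub]
        filter_upwards [Lp.coeFn_sub R (T_memLp hg hχs).toLp, hR,
          MemLp.coeFn_toLp (T_memLp hg hχs)] with x h1 h2 h3
        rw [h1, Pi.sub_apply, Pi.sub_apply, h2, h3]
      have h3 := hψ.1.sub hχs
      have h5 : ∫ p, T s g (ψ - χ) p ^ 2 ∂ν ≤ ∫ p, b ^ 2 * gagl s (ψ - χ) p ∂ν :=
        integral_mono (T_memLp hg h3).integrable_sq (h3.2.const_mul _) fun p => T_sq_le hg _ p
      rw [integral_const_mul] at h5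
      have h6 := (hsNormSq_ge (s := s) (ψ - χ)).2
      have h7 : 0 ≤ ∫ p, gagl s (ψ - χ) p ∂ν := integral_nonneg (gagl_nonneg s _)
      rw [lt_div_iff₀ (by positivity)] at hlt
      refine lt_of_pow_lt_pow_left₀ 2 hε.le ?_
      rw [h2]
      nlinarith [sq_nonneg b]
    have hQe : Q =ᵐ[ν] T s g (f - ⇑Ψ) := by
      have : Q = F - P := by rw [hFPQ]; abel
      rw [this, T_sub]
      filter_upwards [Lp.coeFn_sub F P, hF, hTP] with x h1 h2 h3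
      rw [h1, Pi.sub_apply, Pi.sub_apply, h2, h3]
    unfold Bf
    rw [← L2_inner Q R hQe hR, real_inner_comm]
    exact Submodule.inner_right_of_mem_orthogonal hRN hQ

end Pool.Agent.H438Z.FC
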