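import Pool.Agent.H438Z.FC.Kern

/-! The weighted difference operator and the bilinear form. -/

open MeasureTheory Metric Set Filter Topology
open scoped RealInnerProductSpace ContDiff

namespace Pool.Agent.H438Z.FC

variable {n : ℕ}

/-- weighted difference quotient -/
noncomputable def T (s : ℝ) (g u : E n → ℝ) (p : E n × E n) : ℝ :=
  √(g p.1 * g p.2 * ‖p.1 - p.2‖ ^ (-((n : ℝ) + 2 * s))) * (u p.1 - u p.2)

/-- form without the constant -/
noncomputable def Bf (s : ℝ) (g u v : E n → ℝ) : ℝ :=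
  ∫ p, T s g u p * T s g v p ∂(volume.prod volume)

/-- everywhere bounded measurable weight -/
def Nice (g : E n → ℝ) (a b : ℝ) : Prop := Measurable g ∧ 0 < a ∧ ∀ x, a ≤ g x ∧ g x ≤ b

lemma Nice.pos {g : E n → ℝ} {a b : ℝ} (h : Nice g a b) (x : E n) : 0 < g x :=
  lt_of_lt_of_le h.2.1 (h.2.2 x).1

lemma Nice.abs_le {g : E n → ℝ} {a b : ℝ} (h : Nice g a b) (x : E n) : |g x| ≤ b := by
  rw [abs_of_pos (h.pos x)]; exact (h.2.2 x).2

lemma nice_one : Nice (fun _ : E n => (1 : ℝ)) 1 1 :=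
  ⟨measurable_const, one_pos, fun _ => ⟨le_rfl, le_rfl⟩⟩

lemma T_mul {s a b : ℝ} {g : E n → ℝ} (hg : Nice g a b) (u v : E n → ℝ) (p : E n × E n) :
    T s g u p * T s g v p = g p.1 * g p.2 * ‖p.1 - p.2‖ ^ (-((n : ℝ) + 2 * s)) *
      (u p.1 - u p.2) * (v p.1 - v p.2) := by
  have h1 : 0 ≤ g p.1 * g p.2 * ‖p.1 - p.2‖ ^ (-((n : ℝ) + 2 * s)) := by
    have := hg.pos p.1; have := hg.pos p.2; positivity
  have := Real.mul_self_sqrt h1
  unfold T
  calc _ = (√(g p.1 * g p.2 * ‖p.1 - p.2‖ ^ (-((n : ℝ) + 2 * s))) *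
      √(g p.1 * g p.2 * ‖p.1 - p.2‖ ^ (-((n : ℝ) + 2 * s)))) * (u p.1 - u p.2) * (v p.1 - v p.2) := by
        ring
    _ = _ := by rw [this]

lemma gagl_eq (s : ℝ) (u : E n → ℝ) (p : E n × E n) :
    gagl s u p = ‖p.1 - p.2‖ ^ (-((n : ℝ) + 2 * s)) * (u p.1 - u p.2) ^ 2 := by
  unfold gagl; rw [Real.rpow_neg (norm_nonneg _), div_eq_mul_inv, mul_comm]

lemma gagl_nonneg (s : ℝ) (u : E n → ℝ) (p : E n × E n) : 0 ≤ gagl s u p := by
  rw [gagl_eq]; positivity

lemma T_sq {s a b : ℝ} {g : E n → ℝ} (hg : Nice g a b) (u : E n → ℝ) (p : E n × E n) :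
    T s g u p ^ 2 = g p.1 * g p.2 * gagl s u p := by
  rw [sq, T_mul hg, gagl_eq]; ring

lemma T_sq_le {s a b : ℝ} {g : E n → ℝ} (hg : Nice g a b) (u : E n → ℝ) (p : E n × E n) :
    T s g u p ^ 2 ≤ b ^ 2 * gagl s u p := by
  rw [T_sq hg, sq b]
  have h1 := hg.pos p.1; have h2 := hg.pos p.2
  have h3 := (hg.2.2 p.1).2; have h4 := (hg.2.2 p.2).2
  have := gagl_nonneg s u p
  gcongr
  linarith

lemma le_T_sq {s a b : ℝ} {g : E n → ℝ} (hg : Nice g a b) (u : E n → ℝ) (p : E n × E n) :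
    a ^ 2 * gagl s u p ≤ T s g u p ^ 2 := by
  rw [T_sq hg, sq a]
  have h1 := hg.pos p.1; have h2 := hg.2.1
  have h3 := (hg.2.2 p.1).1; have h4 := (hg.2.2 p.2).1
  have := gagl_nonneg s u p
  gcongr

lemma T_meas {s a b : ℝ} {g : E n → ℝ} (hg : Nice g a b) {u : E n → ℝ}
    (hu : AEStronglyMeasurable u volume) :
    AEStronglyMeasurable (T s g u) (volume.prod volume) := by
  have := hg.1
  exact (Measurable.aestronglyMeasurable (by fun_prop)).mul (hu.comp_fst.sub hu.comp_snd)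

lemma T_memLp {s a b : ℝ} {g : E n → ℝ} (hg : Nice g a b) {u : E n → ℝ} (hu : InHs s u) :
    MemLp (T s g u) 2 (volume.prod volume) := by
  have hm := T_meas (s := s) hg hu.1.1
  rw [memLp_two_iff_integrable_sq hm]
  refine (hu.2.const_mul (b ^ 2)).mono' (hm.pow 2) (Eventually.of_forall fun p => ?_)
  rw [Real.norm_of_nonneg (sq_nonneg _)]
  exact T_sq_le hg u p

lemma inHs_of_T {s a b : ℝ} {g : E n → ℝ} (hg : Nice g a b) {u : E n → ℝ}
    (hu : MemLp u 2 volume) (hT : MemLp (T s g u) 2 (volume.prod volume)) : InHs s u := by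
  refine ⟨hu, ?_⟩
  have h1 := T_meas (s := s) nice_one hu.1
  have h2 : AEStronglyMeasurable (gagl s u) (volume.prod volume) := by
    refine (h1.pow 2).congr (Eventually.of_forall fun p => ?_)
    simp [T_sq nice_one]
  refine (hT.integrable_sq.const_mul (a ^ 2)⁻¹).mono' h2 (Eventually.of_forall fun p => ?_)
  rw [Real.norm_of_nonneg (gagl_nonneg _ _ _), ← div_eq_inv_mul,
    le_div_iff₀ (pow_pos hg.2.1 2), mul_comm]
  exact le_T_sq hg u p

lemma T_add (s : ℝ) (g u v : E n → ℝ) : T s g (u + v) = T s g u + T s g v := by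
  funext p; simp only [T, Pi.add_apply]; ring

lemma T_sub (s : ℝ) (g u v : E n → ℝ) : T s g (u - v) = T s g u - T s g v := by
  funext p; simp only [T, Pi.sub_apply]; ring

lemma T_smul (s c : ℝ) (g u : E n → ℝ) : T s g (c • u) = c • T s g u := by
  funext p; simp only [T, Pi.smul_apply, smul_eq_mul]; ring

lemma InHs.add {s : ℝ} {u v : E n → ℝ} (hu : InHs s u) (hv : InHs s v) : InHs s (u + v) :=
  inHs_of_T nice_one (hu.1.add hv.1)
    (by rw [T_add]; exact (T_memLp nice_one hu).add (T_memLp nice_one hv))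

lemma InHs.sub {s : ℝ} {u v : E n → ℝ} (hu : InHs s u) (hv : InHs s v) : InHs s (u - v) :=
  inHs_of_T nice_one (hu.1.sub hv.1)
    (by rw [T_sub]; exact (T_memLp nice_one hu).sub (T_memLp nice_one hv))

lemma Bf_add_left {s a b : ℝ} {g : E n → ℝ} (hg : Nice g a b) {u v w : E n → ℝ}
    (hu : InHs s u) (hv : InHs s v) (hw : InHs s w) :
    Bf s g (u + v) w = Bf s g u w + Bf s g v w := by
  unfold Bf
  rw [T_add, ← integral_add (cs (T_memLp hg hu) (T_memLp hg hw)).1
    (cs (T_memLp hg hv) (T_memLp hg hw)).1]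
  congr 1; funext p; simp only [Pi.add_apply]; ring

lemma Bf_comm (s : ℝ) (g u v : E n → ℝ) : Bf s g u v = Bf s g v u := by
  unfold Bf; congr 1; funext p; ring

lemma IsTest.integrable {U : Set (E n)} {φ : E n → ℝ} (h : IsTest U φ) : Integrable φ :=
  h.1.continuous.integrable_of_hasCompactSupport h.2.1

lemma IsTest.zero_of {U : Set (E n)} {φ : E n → ℝ} (h : IsTest U φ) {x : E n} (hx : x ∉ U) :
    φ x = 0 := by
  by_contra h1
  exact hx (h.2.2 (subset_tsupport _ h1))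

lemma IsTest.mono {U U' : Set (E n)} {φ : E n → ℝ} (h : IsTest U φ) (hU : U ⊆ U') :
    IsTest U' φ := ⟨h.1, h.2.1, h.2.2.trans hU⟩

lemma IsTest.bdd {U : Set (E n)} {φ : E n → ℝ} (h : IsTest U φ) : ∃ c, ∀ x, |φ x| ≤ c := by
  obtain ⟨c, hc⟩ := h.2.1.exists_bound_of_continuous h.1.continuous
  exact ⟨c, hc⟩

lemma IsTest.inHs {U : Set (E n)} {φ : E n → ℝ} (h : IsTest U φ) {s : ℝ} (hn : 1 ≤ n)
    (hs0 : 0 < s) (hs1 : s < 1) : InHs s φ := by
  refine ⟨h.1.continuous.memLp_of_hasCompactSupport h.2.1, ?_⟩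
  obtain ⟨L, hL⟩ := ContDiff.lipschitzWith_of_hasCompactSupport h.2.1 h.1 (by simp)
  obtain ⟨c, hc⟩ := h.bdd
  set α : ℝ := (n : ℝ) + 2 * s with hα
  let k0 : E n → ℝ := fun z =>
    (ball (0 : E n) 1).indicator (fun z => (L : ℝ) ^ 2 * ‖z‖ ^ (-(α - 2))) z + 4 * c ^ 2 * kd 1 α z
  have hk0 : Integrable k0 := by
    refine Integrable.add ?_ ((kd_integrable one_pos (by linarith)).const_mul _)
    rw [integrable_indicator_iff measurableSet_ball]
    refine integrableOn_ball_of_norm_le_rpow (C := (L : ℝ) ^ 2) (α := α - 2) (by simpa using hn)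
      (by simp; linarith) (Eventually.of_forall fun z => ?_)
      (Measurable.aestronglyMeasurable (by fun_prop))
    rw [Real.norm_of_nonneg (by positivity)]
  have hk0n : ∀ z, 0 ≤ k0 z := fun z => by
    have := kd_nonneg 1 α z
    have h2 : 0 ≤ (ball (0 : E n) 1).indicator (fun z => (L : ℝ) ^ 2 * ‖z‖ ^ (-(α - 2))) z :=
      indicator_nonneg (fun z _ => by positivity) z
    positivity
  have hb : ∀ p : E n × E n, gagl s φ p ≤ k0 (p.1 - p.2) := by
    intro p
    rw [gagl_eq]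
    have hkd := kd_nonneg 1 α (p.1 - p.2)
    by_cases h1 : ‖p.1 - p.2‖ < 1
    · have h2 : (φ p.1 - φ p.2) ^ 2 ≤ (L : ℝ) ^ 2 * ‖p.1 - p.2‖ ^ 2 := by
        have := hL.dist_le_mul p.1 p.2
        rw [Real.dist_eq, dist_eq_norm] at this
        rw [← sq_abs, ← mul_pow]; gcongr
      have h3 : ‖p.1 - p.2‖ ^ (-α) * ((L : ℝ) ^ 2 * ‖p.1 - p.2‖ ^ 2) ≤
          (L : ℝ) ^ 2 * ‖p.1 - p.2‖ ^ (-(α - 2)) := by
        rcases eq_or_lt_of_le (norm_nonneg (p.1 - p.2)) with h0 | h0
        · rw [← h0]; simp only [ne_eq, OfNat.ofNat_ne_zero, not_false_eq_true, zero_pow, mul_zero]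
          positivity
        · apply le_of_eq
          have : ‖p.1 - p.2‖ ^ (-(α - 2)) = ‖p.1 - p.2‖ ^ (-α) * ‖p.1 - p.2‖ ^ 2 := by
            rw [← Real.rpow_natCast, ← Real.rpow_add h0]; congr 1; push_cast; ring
          rw [this]; ring
      simp only [k0]
      rw [indicator_of_mem (mem_ball_zero_iff.2 h1)]
      calc _ ≤ ‖p.1 - p.2‖ ^ (-α) * ((L : ℝ) ^ 2 * ‖p.1 - p.2‖ ^ 2) := by gcongr
        _ ≤ _ := h3
        _ ≤ _ := le_add_of_nonneg_right (by positivity)
    · simp only [k0]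
      rw [indicator_of_notMem (by simpa using h1), zero_add, kd_of_le (not_lt.1 h1), mul_comm]
      gcongr
      have h2 := abs_le.1 (hc p.1)
      have h3 := abs_le.1 (hc p.2)
      nlinarith
  let S := tsupport φ
  have hS : Integrable (S.indicator fun _ => (1 : ℝ)) := by
    rw [integrable_indicator_iff (isClosed_tsupport φ).measurableSet]
    exact integrableOn_const (h.2.1.isCompact.measure_lt_top.ne)
  have h1 := hS.convolution_integrand (ContinuousLinearMap.mul ℝ ℝ) hk0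
  have h2 : Integrable (fun p : E n × E n => S.indicator (fun _ => (1 : ℝ)) p.1 * k0 (p.2 - p.1))
      (volume.prod volume) := h1.swap
  have hsym : ∀ x y : E n, gagl s φ (x, y) = gagl s φ (y, x) := by
    intro x y; simp only [gagl]; rw [norm_sub_rev]; ring
  refine (h1.add h2).mono' ?_ (Eventually.of_forall fun p => ?_)
  · have h3 := T_meas (s := s) nice_one h.1.continuous.aestronglyMeasurable
    refine (h3.pow 2).congr (Eventually.of_forall fun p => ?_)
    simp [T_sq nice_one]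
  · rw [Real.norm_of_nonneg (gagl_nonneg _ _ _)]
    simp only [Pi.add_apply, ContinuousLinearMap.mul_apply']
    have i1 : 0 ≤ S.indicator (fun _ => (1 : ℝ)) p.1 := indicator_nonneg (fun _ _ => zero_le_one) _
    have i2 : 0 ≤ S.indicator (fun _ => (1 : ℝ)) p.2 := indicator_nonneg (fun _ _ => zero_le_one) _
    have k1 := hk0n (p.1 - p.2)
    have k2 := hk0n (p.2 - p.1)
    by_cases hp2 : p.2 ∈ S
    · rw [indicator_of_mem hp2, one_mul]
      exact (hb p).trans (le_add_of_nonneg_right (by positivity))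
    · by_cases hp1 : p.1 ∈ S
      · rw [indicator_of_mem hp1, one_mul]
        have := hb (p.2, p.1)
        rw [← hsym] at this
        exact this.trans (le_add_of_nonneg_left (by positivity))
      · have e1 : φ p.1 = 0 := image_eq_zero_of_notMem_tsupport hp1
        have e2 : φ p.2 = 0 := image_eq_zero_of_notMem_tsupport hp2
        rw [gagl_eq, e1, e2]
        simp only [sub_self, ne_eq, OfNat.ofNat_ne_zero, not_false_eq_true, zero_pow, mul_zero]
        positivity

lemma hsNormSq_ge {s : ℝ} (u : E n → ℝ) :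
    ∫ x, u x ^ 2 ≤ hsNormSq s u ∧ ∫ p, gagl s u p ∂(volume.prod volume) ≤ hsNormSq s u := by
  have h1 : 0 ≤ ∫ x, u x ^ 2 := integral_nonneg fun _ => sq_nonneg _
  have h2 : 0 ≤ ∫ p, gagl s u p ∂(volume.prod volume) := integral_nonneg (gagl_nonneg s u)
  unfold hsNormSq
  constructor <;> linarith

lemma InHsTilde.ae_zero {s : ℝ} {Ω : Set (E n)} (hΩ : IsOpen Ω) {ψ : E n → ℝ}
    (h : InHsTilde s Ω ψ) : ∀ᵐ x, x ∉ Ω → ψ x = 0 := by
  have hI : Integrable (fun x => Ωᶜ.indicator (fun x => ψ x ^ 2) x) :=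
    h.1.1.integrable_sq.indicator hΩ.measurableSet.compl
  have h0 : ∀ x, 0 ≤ Ωᶜ.indicator (fun x => ψ x ^ 2) x :=
    indicator_nonneg fun x _ => sq_nonneg _
  have h1 : ∫ x, Ωᶜ.indicator (fun x => ψ x ^ 2) x ≤ 0 := by
    apply le_of_forall_pos_le_add
    intro ε hε
    obtain ⟨φ, hφ, hlt⟩ := h.2 ε hε
    have h2 : MemLp (ψ - φ) 2 volume :=
      h.1.1.sub (hφ.1.continuous.memLp_of_hasCompactSupport hφ.2.1)
    have h3 : ∫ x, Ωᶜ.indicator (fun x => ψ x ^ 2) x ≤ ∫ x, (ψ - φ) x ^ 2 := by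
      refine integral_mono hI h2.integrable_sq fun x => ?_
      by_cases hx : x ∈ Ω
      · simp only [indicator_of_notMem (show x ∉ Ωᶜ from fun h => h hx)]; positivity
      · simp [indicator_of_mem (show x ∈ Ωᶜ from hx), hφ.zero_of hx]
    linarith [(hsNormSq_ge (s := s) (ψ - φ)).1]
  have h4 := (integral_eq_zero_iff_of_nonneg h0 hI).1 (le_antisymm h1 (integral_nonneg h0))
  filter_upwards [h4] with x hx hxΩ
  simpa [indicator_of_mem (show x ∈ Ωᶜ from hxΩ)] using hx

/-- Poincare inequality for a set bounded in one direction -/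
lemma poincare {s : ℝ} (hs0 : 0 < s) {Ω : Set (E n)}
    (hbd : ∃ e : E n, ‖e‖ = 1 ∧ ∃ r : ℝ, ∀ x ∈ Ω, |⟪e, x⟫| ≤ r) :
    ∃ c : ℝ, 0 < c ∧ ∀ ψ : E n → ℝ, InHs s ψ → (∀ᵐ x, x ∉ Ω → ψ x = 0) →
      c * ∫ x, ψ x ^ 2 ≤ ∫ p, gagl s ψ p ∂(volume.prod volume) := by
  obtain ⟨e, he, r0, hr0⟩ := hbd
  set r := |r0| with hrdef
  have hr : ∀ x ∈ Ω, |⟪e, x⟫| ≤ r := fun x hx => (hr0 x hx).trans (le_abs_self _)
  have hrn : 0 ≤ r := abs_nonneg _
  set α : ℝ := (n : ℝ) + 2 * s with hα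
  have hα0 : 0 < α := by positivity
  set L : ℝ := 2 * r + 2 with hL
  have hv : 0 < (volume (ball (0 : E n) 1)).toReal :=
    ENNReal.toReal_pos (measure_ball_pos _ _ one_pos).ne' measure_ball_lt_top.ne
  refine ⟨(L + 1) ^ (-α) * (volume (ball (0 : E n) 1)).toReal, by positivity, fun ψ hψ h0 => ?_⟩
  let χ : E n → ℝ := (ball (L • e) 1).indicator fun _ => (1 : ℝ)
  have hχ : Integrable χ := by
    rw [integrable_indicator_iff measurableSet_ball]
    exact integrableOn_const measure_ball_lt_top.ne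
  have h1 := hψ.1.integrable_sq.convolution_integrand (ContinuousLinearMap.mul ℝ ℝ) hχ
  simp only [ContinuousLinearMap.mul_apply'] at h1
  have h2 : ∫ p : E n × E n, ψ p.2 ^ 2 * χ (p.1 - p.2) ∂(volume.prod volume) =
      (volume (ball (0 : E n) 1)).toReal * ∫ x, ψ x ^ 2 := by
    rw [integral_prod_symm _ h1]
    simp only [integral_const_mul, integral_sub_right_eq_self χ]
    rw [integral_mul_const, mul_comm]
    congr 1
    simp only [χ]
    rw [integral_indicator measurableSet_ball]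
    simp [Measure.real, Measure.addHaar_ball_center]
  rw [mul_assoc, ← h2, ← integral_const_mul]
  refine integral_mono_ae (h1.const_mul _) hψ.2 ?_
  filter_upwards [Measure.quasiMeasurePreserving_fst.ae h0,
    Measure.quasiMeasurePreserving_snd.ae h0] with p hp1 hp2
  by_cases hb : p.1 - p.2 ∈ ball (L • e) 1
  · simp only [χ, indicator_of_mem hb, mul_one]
    by_cases h2Ω : p.2 ∈ Ω
    · have hd : ‖p.1 - p.2 - L • e‖ < 1 := by rwa [mem_ball, dist_eq_norm] at hb
      have hnot : p.1 ∉ Ω := by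
        intro h1Ω
        have a1 := abs_le.1 (hr _ h1Ω)
        have a2 := abs_le.1 (hr _ h2Ω)
        have a3 := abs_real_inner_le_norm e (p.1 - p.2 - L • e)
        rw [he, one_mul, inner_sub_right, inner_sub_right, inner_smul_right,
          real_inner_self_eq_norm_sq, he] at a3
        have a4 := abs_le.1 a3
        linarith [a4.1]
      have hLe : ‖L • e‖ = L := by
        rw [norm_smul, he, mul_one, Real.norm_of_nonneg (by positivity)]
      have hup : ‖p.1 - p.2‖ ≤ L + 1 := by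
        have := norm_add_le (p.1 - p.2 - L • e) (L • e)
        rw [sub_add_cancel, hLe] at this; linarith
      have hlow : 0 < ‖p.1 - p.2‖ := by
        have := norm_sub_le (p.1 - p.2) (p.1 - p.2 - L • e)
        rw [sub_sub_cancel, hLe] at this; linarith
      rw [gagl_eq, hp1 hnot, zero_sub, neg_sq]
      gcongr ?_ * _
      exact Real.rpow_le_rpow_of_nonpos hlow hup (by linarith)
    · rw [hp2 h2Ω]; simpa using gagl_nonneg s ψ p
  · simpa [χ, indicator_of_notMem hb] using gagl_nonneg s ψ p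

end Pool.Agent.H438Z.FC
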