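import Pool.Agent.H438Z.FC.Defs

/-! Truncated kernels and separated double integrals. -/

open MeasureTheory Metric Set Filter Topology
open scoped RealInnerProductSpace

namespace Pool.Agent.H438Z.FC

variable {n : ℕ}

/-- truncated kernel -/
noncomputable def kd (δ α : ℝ) (z : E n) : ℝ := if δ ≤ ‖z‖ then ‖z‖ ^ (-α) else 0

lemma kd_nonneg (δ α : ℝ) (z : E n) : 0 ≤ kd δ α z := by
  unfold kd; split_ifs <;> positivity

lemma kd_meas (δ α : ℝ) : Measurable (kd δ α : E n → ℝ) := by
  unfold kd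
  exact Measurable.ite (measurableSet_le measurable_const measurable_norm) (by fun_prop)
    measurable_const

lemma kd_symm (δ α : ℝ) (x y : E n) : kd δ α (x - y) = kd δ α (y - x) := by
  unfold kd; rw [norm_sub_rev]

lemma kd_of_le {δ α : ℝ} {z : E n} (h : δ ≤ ‖z‖) : kd δ α z = ‖z‖ ^ (-α) := by
  simp [kd, h]

lemma kd_sq (δ α : ℝ) (z : E n) : kd δ α z ^ 2 = kd δ (2 * α) z := by
  unfold kd; split_ifs
  · rw [← Real.rpow_natCast, ← Real.rpow_mul (norm_nonneg _)]; congr 1; push_cast; ring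
  · simp

lemma kd_integrable {δ α : ℝ} (hδ : 0 < δ) (hα : (n : ℝ) < α) :
    Integrable (kd δ α : E n → ℝ) := by
  have hα0 : 0 < α := lt_of_le_of_lt (Nat.cast_nonneg _) hα
  have h1 : Integrable (fun x : E n => (1 + ‖x‖) ^ (-α)) volume :=
    integrable_one_add_norm (by simpa using hα)
  refine (h1.const_mul ((1 + δ⁻¹) ^ α)).mono' (kd_meas δ α).aestronglyMeasurable
    (Eventually.of_forall fun z => ?_)
  rw [Real.norm_of_nonneg (kd_nonneg _ _ _)]
  unfold kd; split_ifs with h
  · have hz : 0 < ‖z‖ := by linarith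
    have h2 : (1 + ‖z‖) / (1 + δ⁻¹) ≤ ‖z‖ := by
      rw [div_le_iff₀ (by positivity), mul_add, mul_one, add_comm]
      have : 1 ≤ ‖z‖ * δ⁻¹ := by rw [← div_eq_mul_inv, le_div_iff₀ hδ]; linarith
      linarith
    have h3 := Real.rpow_le_rpow_of_nonpos (by positivity) h2 (by linarith : -α ≤ 0)
    rw [Real.div_rpow (by positivity) (by positivity),
      Real.rpow_neg (by positivity : 0 ≤ 1 + δ⁻¹), div_inv_eq_mul] at h3
    linarith
  · positivity

lemma cs {X : Type*} [MeasurableSpace X] {μ : Measure X} {a b : X → ℝ}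
    (ha : MemLp a 2 μ) (hb : MemLp b 2 μ) :
    Integrable (fun x => a x * b x) μ ∧
      |∫ x, a x * b x ∂μ| ≤ √(∫ x, a x ^ 2 ∂μ) * √(∫ x, b x ^ 2 ∂μ) := by
  have hab : Integrable (fun x => a x * b x) μ := ha.integrable_mul hb
  have ha2 := ha.integrable_sq
  have hb2 := hb.integrable_sq
  refine ⟨hab, ?_⟩
  have hA : 0 ≤ ∫ x, a x ^ 2 ∂μ := integral_nonneg fun x => sq_nonneg _
  have hB : 0 ≤ ∫ x, b x ^ 2 ∂μ := integral_nonneg fun x => sq_nonneg _
  have hd := discrim_le_zero (a := ∫ x, a x ^ 2 ∂μ) (b := 2 * ∫ x, a x * b x ∂μ)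
    (c := ∫ x, b x ^ 2 ∂μ) (fun t => by
      have h1 : 0 ≤ ∫ x, (t * a x + b x) ^ 2 ∂μ := integral_nonneg fun x => sq_nonneg _
      have h2 : ∫ x, (t * a x + b x) ^ 2 ∂μ =
          ∫ x, (t * t * a x ^ 2 + 2 * t * (a x * b x)) + b x ^ 2 ∂μ := by
        congr 1; funext x; ring
      have h3 : Integrable (fun x => t * t * a x ^ 2 + 2 * t * (a x * b x)) μ :=
        (ha2.const_mul _).add (hab.const_mul _)
      rw [h2, integral_add h3 hb2,
        integral_add (ha2.const_mul _) (hab.const_mul _), integral_const_mul,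
        integral_const_mul] at h1
      linarith)
  rw [← Real.sqrt_mul hA]
  apply Real.abs_le_sqrt
  unfold discrim at hd
  nlinarith

/-- uniform bound for the potential of `b` -/
def Pot (δ α : ℝ) (b : E n → ℝ) (M : ℝ) : Prop :=
  AEStronglyMeasurable b volume ∧ ∀ x : E n, Integrable (fun y => b y * kd δ α (x - y)) ∧
    ∫ y, |b y| * kd δ α (x - y) ≤ M

lemma kd_shift_integrable {δ α : ℝ} (hδ : 0 < δ) (hα : (n : ℝ) < α) (x : E n) :
    Integrable (fun y : E n => kd δ α (x - y)) := by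
  simp only [kd_symm δ α x]
  exact (kd_integrable hδ hα).comp_sub_right x

lemma kd_shift_integral (δ α : ℝ) (x : E n) :
    ∫ y : E n, kd δ α (x - y) = ∫ y : E n, kd δ α y := by
  simp only [kd_symm δ α x]
  exact integral_sub_right_eq_self (kd δ α) x

lemma pot_L2 {δ α : ℝ} (hδ : 0 < δ) (hα : (n : ℝ) < α) {b : E n → ℝ} (hb : MemLp b 2 volume) :
    Pot δ α b (√(∫ y, b y ^ 2) * √(∫ y : E n, kd δ (2 * α) y)) := by
  have hα0 : 0 < α := lt_of_le_of_lt (Nat.cast_nonneg _) hα
  refine ⟨hb.1, fun x => ?_⟩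
  have hk : MemLp (fun y : E n => kd δ α (x - y)) 2 volume := by
    rw [memLp_two_iff_integrable_sq (kd_shift_integrable hδ hα x).1]
    simp only [kd_sq]
    exact kd_shift_integrable hδ (by linarith) x
  refine ⟨(cs hb hk).1, ?_⟩
  have h1 := (cs hb.abs hk).2
  simp only [Pi.abs_apply, sq_abs, kd_sq, kd_shift_integral] at h1
  exact (le_abs_self _).trans h1

lemma pot_bdd {δ α : ℝ} (hδ : 0 < δ) (hα : (n : ℝ) < α) {b : E n → ℝ}
    (hb : AEStronglyMeasurable b volume) {c : ℝ} (hc : ∀ y, |b y| ≤ c) :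
    Pot δ α b (c * ∫ y : E n, kd δ α y) := by
  refine ⟨hb, fun x => ?_⟩
  have hk := kd_shift_integrable hδ hα x
  have h1 : Integrable (fun y => b y * kd δ α (x - y)) :=
    hk.bdd_mul (c := c) hb (Eventually.of_forall hc)
  refine ⟨h1, ?_⟩
  rw [← kd_shift_integral δ α x, ← integral_const_mul]
  refine integral_mono ?_ (hk.const_mul c) fun y => ?_
  · refine h1.abs.congr (Eventually.of_forall fun y => ?_)
    simp [abs_mul, abs_of_nonneg (kd_nonneg δ α _)]
  · exact mul_le_mul_of_nonneg_right (hc y) (kd_nonneg _ _ _)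

lemma Pot.abs_le {δ α M : ℝ} {b : E n → ℝ} (h : Pot δ α b M) (x : E n) :
    |∫ y, b y * kd δ α (x - y)| ≤ M := by
  refine le_trans abs_integral_le_integral_abs (le_trans (le_of_eq ?_) (h.2 x).2)
  congr 1; funext y
  simp [abs_mul, abs_of_nonneg (kd_nonneg δ α _)]

lemma sep {δ α M : ℝ} {a b : E n → ℝ} (ha : Integrable a) (hb : Pot δ α b M) :
    Integrable (fun p : E n × E n => a p.1 * (b p.2 * kd δ α (p.1 - p.2))) (volume.prod volume) ∧
    ∫ p : E n × E n, a p.1 * (b p.2 * kd δ α (p.1 - p.2)) ∂(volume.prod volume) =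
      ∫ x, a x * ∫ y, b y * kd δ α (x - y) := by
  have hm : AEStronglyMeasurable (fun p : E n × E n => a p.1 * (b p.2 * kd δ α (p.1 - p.2)))
      (volume.prod volume) :=
    ha.1.comp_fst.mul (hb.1.comp_snd.mul
      ((kd_meas δ α).comp (measurable_fst.sub measurable_snd)).aestronglyMeasurable)
  have hI : Integrable (fun p : E n × E n => a p.1 * (b p.2 * kd δ α (p.1 - p.2)))
      (volume.prod volume) := by
    rw [integrable_prod_iff hm]
    refine ⟨Eventually.of_forall fun x => (hb.2 x).1.const_mul (a x), ?_⟩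
    refine (ha.norm.mul_const M).mono' hm.norm.integral_prod_right' (Eventually.of_forall fun x => ?_)
    rw [Real.norm_of_nonneg (integral_nonneg fun y => norm_nonneg _)]
    have : ∫ y, ‖a x * (b y * kd δ α (x - y))‖ = ‖a x‖ * ∫ y, |b y| * kd δ α (x - y) := by
      rw [← integral_const_mul]; congr 1; funext y
      simp [abs_of_nonneg (kd_nonneg δ α _)]
    rw [this]
    exact mul_le_mul_of_nonneg_left (hb.2 x).2 (norm_nonneg _)
  refine ⟨hI, ?_⟩
  rw [integral_prod _ hI]
  simp only [integral_const_mul]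

lemma sep_bound {δ α M : ℝ} {a b : E n → ℝ} (ha : Integrable a) (hb : Pot δ α b M) :
    Integrable (fun x => a x * ∫ y, b y * kd δ α (x - y)) ∧
    |∫ x, a x * ∫ y, b y * kd δ α (x - y)| ≤ (∫ x, |a x|) * M := by
  have hI : Integrable (fun x => a x * ∫ y, b y * kd δ α (x - y)) := by
    have := (sep ha hb).1.integral_prod_left
    simpa only [integral_const_mul] using this
  refine ⟨hI, le_trans abs_integral_le_integral_abs ?_⟩
  rw [← integral_mul_const]
  refine integral_mono hI.abs (ha.abs.mul_const M) fun x => ?_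
  simp only [abs_mul]
  exact mul_le_mul_of_nonneg_left (hb.abs_le x) (abs_nonneg _)

/-- symmetrised version -/
lemma sep_symm {δ α M : ℝ} {a b : E n → ℝ} (ha : Integrable a) (hb : Pot δ α b M) :
    ∫ p : E n × E n, (a p.1 * (b p.2 * kd δ α (p.1 - p.2)) + a p.2 * (b p.1 * kd δ α (p.2 - p.1)))
      ∂(volume.prod volume) = 2 * ∫ x, a x * ∫ y, b y * kd δ α (x - y) := by
  have h1 := sep ha hb
  have h2 : Integrable (fun p : E n × E n => a p.2 * (b p.1 * kd δ α (p.2 - p.1)))
      (volume.prod volume) := h1.1.swap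
  have h3 := integral_prod_swap (μ := (volume : Measure (E n))) (ν := (volume : Measure (E n)))
    (fun p : E n × E n => a p.1 * (b p.2 * kd δ α (p.1 - p.2)))
  rw [integral_add h1.1 h2, h1.2]
  simp only [Prod.fst_swap, Prod.snd_swap] at h3
  rw [h3, h1.2]; ring

end Pool.Agent.H438Z.FC
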