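import Mathlib

/-! Uniqueness for the Laplace transform near the origin. -/

open MeasureTheory Metric Set Filter Topology ProbabilityTheory
open scoped RealInnerProductSpace

namespace Pool.Agent.H438Z.FC

lemma meas_eq_of_laplace {V : Type*} [NormedAddCommGroup V] [InnerProductSpace ℝ V]
    [FiniteDimensional ℝ V] [MeasurableSpace V] [BorelSpace V]
    (μ ν : Measure V) [IsFiniteMeasure μ] [IsFiniteMeasure ν]
    (hμ : ∀ ξ : V, Integrable (fun y => Real.exp ⟪y, ξ⟫) μ)
    (hν : ∀ ξ : V, Integrable (fun y => Real.exp ⟪y, ξ⟫) ν)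
    (ρ : ℝ) (hρ : 0 < ρ)
    (h0 : ∀ ξ : V, ‖ξ‖ < ρ → ∫ y, Real.exp ⟪y, ξ⟫ ∂μ = ∫ y, Real.exp ⟪y, ξ⟫ ∂ν) : μ = ν := by
  apply Measure.ext_of_charFun
  funext ξ
  have hset : ∀ (κ : Measure V), (∀ ξ : V, Integrable (fun y => Real.exp ⟪y, ξ⟫) κ) →
      AnalyticOnNhd ℂ (complexMGF (fun y => ⟪y, ξ⟫) κ) univ := by
    intro κ hκ
    have h1 : integrableExpSet (fun y => ⟪y, ξ⟫) κ = univ := by
      ext t
      simp only [integrableExpSet, mem_ofPred_eq, mem_univ, iff_true]
      have := hκ (t • ξ)
      simpa [inner_smul_right] using this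
    have := analyticOnNhd_complexMGF (X := fun y => ⟪y, ξ⟫) (μ := κ)
    simpa [h1] using this
  have hA := hset μ hμ
  have hB := hset ν hν
  have hfreq : ∃ᶠ z in 𝓝[≠] (0 : ℂ),
      complexMGF (fun y => ⟪y, ξ⟫) μ z = complexMGF (fun y => ⟪y, ξ⟫) ν z := by
    have hT : Tendsto (fun t : ℝ => (t : ℂ)) (𝓝[≠] 0) (𝓝[≠] (0 : ℂ)) := by
      apply tendsto_nhdsWithin_iff.2
      constructor
      · have := Complex.continuous_ofReal.tendsto 0
        simpa using this.mono_left nhdsWithin_le_nhds
      · filter_upwards [self_mem_nhdsWithin] with t ht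
        simpa using ht
    apply hT.frequently
    apply Eventually.frequently
    have hc : Continuous (fun t : ℝ => ‖t • ξ‖) := by fun_prop
    have hev : ∀ᶠ t : ℝ in 𝓝 0, ‖t • ξ‖ < ρ := by
      apply hc.continuousAt.eventually_lt continuousAt_const
      simpa using hρ
    filter_upwards [nhdsWithin_le_nhds hev] with t ht
    rw [complexMGF_ofReal, complexMGF_ofReal]
    congr 1
    have := h0 (t • ξ) ht
    simpa [mgf, inner_smul_right] using this
  have hEq := hA.eqOn_of_preconnected_of_frequently_eq hB isPreconnected_univ (mem_univ 0) hfreq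
  have := hEq (mem_univ Complex.I)
  simp only [complexMGF] at this
  simp only [charFun_apply]
  simpa [mul_comm] using this

lemma laplace_zero {V : Type*} [NormedAddCommGroup V] [InnerProductSpace ℝ V]
    [FiniteDimensional ℝ V] [MeasurableSpace V] [BorelSpace V] (m : Measure V) [SigmaFinite m]
    (k : V → ℝ) (hk : ∀ ξ : V, Integrable (fun y => k y * Real.exp ⟪y, ξ⟫) m)
    (ρ : ℝ) (hρ : 0 < ρ)
    (h0 : ∀ ξ : V, ‖ξ‖ < ρ → ∫ y, k y * Real.exp ⟪y, ξ⟫ ∂m = 0) : k =ᵐ[m] 0 := by
  have hk0 : Integrable k m := by simpa using hk 0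
  have hp : AEMeasurable (fun y => ENNReal.ofReal (k y)) m :=
    hk0.aemeasurable.ennreal_ofReal
  have hm : AEMeasurable (fun y => ENNReal.ofReal (-k y)) m :=
    hk0.aemeasurable.neg.ennreal_ofReal
  have : IsFiniteMeasure (m.withDensity fun y => ENNReal.ofReal (k y)) :=
    isFiniteMeasure_withDensity_ofReal hk0.2
  have : IsFiniteMeasure (m.withDensity fun y => ENNReal.ofReal (-k y)) :=
    isFiniteMeasure_withDensity_ofReal hk0.neg.2
  have hip : ∀ ξ : V, Integrable (fun y => max (k y) 0 * Real.exp ⟪y, ξ⟫) m := by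
    intro ξ
    refine (hk ξ).pos_part.congr (Eventually.of_forall fun y => ?_)
    have := Real.exp_pos ⟪y, ξ⟫
    simp only
    rw [max_mul_of_nonneg _ _ this.le, zero_mul]
  have him : ∀ ξ : V, Integrable (fun y => max (-k y) 0 * Real.exp ⟪y, ξ⟫) m := by
    intro ξ
    refine (hk ξ).neg_part.congr (Eventually.of_forall fun y => ?_)
    have := Real.exp_pos ⟪y, ξ⟫
    simp only
    rw [max_mul_of_nonneg _ _ this.le, zero_mul, neg_mul]
  have key := meas_eq_of_laplace (m.withDensity fun y => ENNReal.ofReal (k y))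
    (m.withDensity fun y => ENNReal.ofReal (-k y)) ?_ ?_ ρ hρ ?_
  · have := (withDensity_eq_iff_of_sigmaFinite hp hm).1 key
    filter_upwards [this] with y hy
    have h1 := congrArg ENNReal.toReal hy
    simp only [ENNReal.toReal_ofReal'] at h1
    simp only [Pi.zero_apply]
    rcases le_total (k y) 0 with h | h
    · rw [max_eq_right h, max_eq_left (by linarith)] at h1; linarith
    · rw [max_eq_left h, max_eq_right (by linarith)] at h1; linarith
  · intro ξ
    rw [integrable_withDensity_iff_integrable_smul₀' hp (by simp)]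
    simpa [ENNReal.toReal_ofReal'] using hip ξ
  · intro ξ
    rw [integrable_withDensity_iff_integrable_smul₀' hm (by simp)]
    simpa [ENNReal.toReal_ofReal'] using him ξ
  · intro ξ hξ
    rw [integral_withDensity_eq_integral_toReal_smul₀ hp (by simp),
      integral_withDensity_eq_integral_toReal_smul₀ hm (by simp)]
    simp only [ENNReal.toReal_ofReal', smul_eq_mul]
    have := h0 ξ hξ
    rw [← sub_eq_zero, ← integral_sub (hip ξ) (him ξ)]
    refine Eq.trans ?_ this
    congr 1
    funext y
    rw [← sub_mul]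
    congr 1
    rcases le_total (k y) 0 with h | h
    · rw [max_eq_right h, max_eq_left (by linarith)]; ring
    · rw [max_eq_left h, max_eq_right (by linarith)]; ring

end Pool.Agent.H438Z.FC
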