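import Pool.Agent.H438Z.FC.Laplace

/-! Unique continuation for Riesz type potentials. -/

open MeasureTheory Metric Set Filter Topology
open scoped RealInnerProductSpace

namespace Pool.Agent.H438Z.FC

variable {V : Type*} [NormedAddCommGroup V] [InnerProductSpace ℝ V]

lemma hda_congr {f g : ℝ → ℝ} {a b x : ℝ} (h : HasDerivAt f a x) (hf : ∀ t, g t = f t)
    (hab : b = a) : HasDerivAt g b x := by
  have : g = f := funext hf
  rw [this, hab]; exact h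

lemma dir_deriv [MeasurableSpace V] (m : Measure V) (D : V → ℝ) (hD : Integrable D m)
    (F F' : V → V → ℝ) (U : Set V) (hU : IsOpen U) (v : V)
    (hFi : ∀ x ∈ U, Integrable (F x) m) (hF'm : ∀ x, AEStronglyMeasurable (F' x) m)
    (hF'b : ∀ᵐ y ∂m, ∀ x ∈ U, ‖F' x y‖ ≤ D y)
    (hd : ∀ᵐ y ∂m, ∀ x ∈ U, HasDerivAt (fun t : ℝ => F (x + t • v) y) (F' x y) 0)
    (h0 : ∀ x ∈ U, ∫ y, F x y ∂m = 0) : ∀ x ∈ U, ∫ y, F' x y ∂m = 0 := by
  intro x hx
  have hc : Continuous (fun t : ℝ => x + t • v) := by fun_prop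
  have hs : {t : ℝ | x + t • v ∈ U} ∈ 𝓝 (0 : ℝ) := by
    apply (hU.preimage hc).mem_nhds
    simpa using hx
  have key := hasDerivAt_integral_of_dominated_loc_of_deriv_le (μ := m) (𝕜 := ℝ)
    (F := fun t y => F (x + t • v) y) (F' := fun t y => F' (x + t • v) y) (x₀ := 0)
    (bound := D) hs ?_ ?_ ?_ ?_ hD ?_
  · have h1 := key.2
    have h2 : HasDerivAt (fun t : ℝ => ∫ y, F (x + t • v) y ∂m) 0 0 := by
      refine (hasDerivAt_const (0 : ℝ) (0 : ℝ)).congr_of_eventuallyEq ?_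
      filter_upwards [hs] with t ht
      exact h0 _ ht
    simpa using h1.unique h2
  · filter_upwards [hs] with t ht
    exact (hFi _ ht).aestronglyMeasurable
  · simpa using hFi x hx
  · exact hF'm _
  · filter_upwards [hF'b] with y hy t ht
    exact hy _ ht
  · filter_upwards [hd] with y hy t ht
    have h1 := hy _ ht
    have h2 : HasDerivAt (fun τ : ℝ => F (x + t • v + (τ - t) • v) y) (F' (x + t • v) y) t := by
      have h3 : HasDerivAt (fun τ : ℝ => F (x + t • v + τ • v) y) (F' (x + t • v) y) (t - t) := by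
        simpa using h1
      exact h3.comp_sub_const t t
    refine h2.congr_of_eventuallyEq (Eventually.of_forall fun τ => ?_)
    simp only
    congr 1
    rw [sub_smul]; abel

lemma hasDerivAt_norm_rpow (w v : V) (hw : w ≠ 0) (γ : ℝ) :
    HasDerivAt (fun t : ℝ => ‖w + t • v‖ ^ (-γ)) (-γ * ⟪w, v⟫ * ‖w‖ ^ (-γ - 2)) 0 := by
  have hn : 0 < ‖w‖ := norm_pos_iff.2 hw
  have h1 : HasDerivAt (fun t : ℝ => w + t • v) v 0 := by
    simpa using ((hasDerivAt_id (0 : ℝ)).smul_const v).const_add w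
  have h2 : HasDerivAt (fun t : ℝ => ‖w + t • v‖ ^ 2) (2 * ⟪w, v⟫) 0 := by
    simpa using h1.norm_sq
  have h3 := h2.rpow_const (p := -γ / 2) (Or.inl (by simpa using hw))
  have e : ∀ u : V, (‖u‖ ^ 2) ^ (-γ / 2) = ‖u‖ ^ (-γ) := by
    intro u
    rw [← Real.rpow_natCast, ← Real.rpow_mul (norm_nonneg u)]
    congr 1; push_cast; ring
  simp only [e] at h3
  convert h3 using 1
  simp only [zero_smul, add_zero]
  rw [← Real.rpow_natCast, ← Real.rpow_mul (norm_nonneg w)]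
  have : ((2 : ℕ) : ℝ) * (-γ / 2 - 1) = -γ - 2 := by push_cast; ring
  rw [this]; ring

omit [InnerProductSpace ℝ V] in
lemma ker_bound (z : V) (ρ α γ : ℝ) (hρ : 0 < ρ) (hα : 0 ≤ α) (hγ : α ≤ γ) :
    ∃ C : ℝ, 0 ≤ C ∧ ∀ x ∈ ball z ρ, ∀ y, 2 * ρ ≤ ‖z - y‖ →
      ρ ≤ ‖x - y‖ ∧ ‖x - y‖ ^ (-γ) ≤ C * ‖z - y‖ ^ (-α) := by
  refine ⟨ρ ^ (α - γ) * 2 ^ α, by positivity, fun x hx y hy => ?_⟩
  have h1 : ‖z - y‖ ≤ ‖x - y‖ + ρ := by
    have h2 : ‖z - x‖ < ρ := by rw [← dist_eq_norm, dist_comm]; exact hx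
    have h3 : ‖z - y‖ ≤ ‖z - x‖ + ‖x - y‖ := norm_sub_le_norm_sub_add_norm_sub z x y
    linarith
  have h4 : ρ ≤ ‖x - y‖ := by linarith
  have h5 : ‖z - y‖ / 2 ≤ ‖x - y‖ := by linarith
  have hz : 0 < ‖z - y‖ := by linarith
  have hr : 0 < ‖x - y‖ := by linarith
  refine ⟨h4, ?_⟩
  have e1 : ‖x - y‖ ^ (-γ) = ‖x - y‖ ^ (α - γ) * ‖x - y‖ ^ (-α) := by
    rw [← Real.rpow_add hr]; congr 1; ring
  have e2 : ‖x - y‖ ^ (α - γ) ≤ ρ ^ (α - γ) :=
    Real.rpow_le_rpow_of_nonpos hρ h4 (by linarith)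
  have e3 : ‖x - y‖ ^ (-α) ≤ (‖z - y‖ / 2) ^ (-α) :=
    Real.rpow_le_rpow_of_nonpos (by positivity) h5 (by linarith)
  have e4 : (‖z - y‖ / 2) ^ (-α) = 2 ^ α * ‖z - y‖ ^ (-α) := by
    rw [Real.div_rpow hz.le (by norm_num), Real.rpow_neg (by norm_num : (0 : ℝ) ≤ 2)]
    field_simp
  rw [e1, mul_assoc, ← e4]
  exact mul_le_mul e2 e3 (by positivity) (by positivity)

variable [FiniteDimensional ℝ V] [MeasurableSpace V] [BorelSpace V]

omit [FiniteDimensional ℝ V] in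
lemma int_of_ge (m : Measure V) (h : V → ℝ) (hm : AEStronglyMeasurable h m) (z : V) (ρ α : ℝ)
    (hρ : 0 < ρ) (hα : 0 ≤ α) (hsupp : ∀ᵐ y ∂m, 2 * ρ ≤ ‖z - y‖)
    (hint : Integrable (fun y => h y * ‖z - y‖ ^ (-α)) m) (γ : ℝ) (hγ : α ≤ γ)
    (x : V) (hx : x ∈ ball z ρ) : Integrable (fun y => h y * ‖x - y‖ ^ (-γ)) m := by
  obtain ⟨C, hC, hb⟩ := ker_bound z ρ α γ hρ hα hγ
  refine (hint.norm.const_mul C).mono' ?_ ?_
  · exact hm.mul (Measurable.aestronglyMeasurable (by fun_prop))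
  · filter_upwards [hsupp] with y hy
    have := (hb x hx y hy).2
    rw [norm_mul, norm_mul, Real.norm_of_nonneg (by positivity : 0 ≤ ‖x - y‖ ^ (-γ)),
      Real.norm_of_nonneg (by positivity : 0 ≤ ‖z - y‖ ^ (-α))]
    calc ‖h y‖ * ‖x - y‖ ^ (-γ) ≤ ‖h y‖ * (C * ‖z - y‖ ^ (-α)) := by gcongr
      _ = _ := by ring

lemma lap_step (m : Measure V) (h : V → ℝ) (hm : AEStronglyMeasurable h m) (z : V) (ρ α : ℝ)
    (hρ : 0 < ρ) (hα : (Module.finrank ℝ V : ℝ) < α) (hsupp : ∀ᵐ y ∂m, 2 * ρ ≤ ‖z - y‖)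
    (hint : Integrable (fun y => h y * ‖z - y‖ ^ (-α)) m) (γ : ℝ) (hγ : α ≤ γ)
    (h0 : ∀ x ∈ ball z ρ, ∫ y, h y * ‖x - y‖ ^ (-γ) ∂m = 0) :
    ∀ x ∈ ball z ρ, ∫ y, h y * ‖x - y‖ ^ (-(γ + 2)) ∂m = 0 := by
  have hα0 : 0 < α := lt_of_le_of_lt (Nat.cast_nonneg _) hα
  have hγ0 : 0 < γ := by linarith
  obtain ⟨C1, hC1, hb1⟩ := ker_bound z ρ α (γ + 1) hρ hα0.le (by linarith)
  obtain ⟨C2, hC2, hb2⟩ := ker_bound z ρ α (γ + 2) hρ hα0.le (by linarith)
  have second : ∀ v : V, ‖v‖ = 1 → (∀ x ∈ ball z ρ, Integrable (fun y => h y *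
      (‖x - y‖ ^ (-γ - 2) + ⟪x - y, v⟫ * (-(γ + 2) * ⟪x - y, v⟫ * ‖x - y‖ ^ (-(γ + 2) - 2)))) m) ∧
      ∀ x ∈ ball z ρ, ∫ y, h y *
      (‖x - y‖ ^ (-γ - 2) + ⟪x - y, v⟫ * (-(γ + 2) * ⟪x - y, v⟫ * ‖x - y‖ ^ (-(γ + 2) - 2))) ∂m
        = 0 := by
    intro v hv
    have hin : ∀ w : V, |⟪w, v⟫| ≤ ‖w‖ := fun w => by
      simpa [hv] using abs_real_inner_le_norm w v
    have bA : ∀ᵐ y ∂m, ∀ x ∈ ball z ρ, ‖h y * (⟪x - y, v⟫ * ‖x - y‖ ^ (-γ - 2))‖ ≤
        C1 * ‖h y * ‖z - y‖ ^ (-α)‖ := by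
      filter_upwards [hsupp] with y hy x hx
      obtain ⟨hr, hk⟩ := hb1 x hx y hy
      have hr0 : 0 < ‖x - y‖ := by linarith
      have e : ‖x - y‖ * ‖x - y‖ ^ (-γ - 2) = ‖x - y‖ ^ (-(γ + 1)) := by
        rw [← Real.rpow_one_add' hr0.le (by linarith)]; congr 1; ring
      rw [norm_mul, norm_mul, norm_mul,
        Real.norm_of_nonneg (by positivity : 0 ≤ ‖x - y‖ ^ (-γ - 2)),
        Real.norm_of_nonneg (by positivity : 0 ≤ ‖z - y‖ ^ (-α)), Real.norm_eq_abs ⟪x - y, v⟫]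
      calc ‖h y‖ * (|⟪x - y, v⟫| * ‖x - y‖ ^ (-γ - 2))
          ≤ ‖h y‖ * (‖x - y‖ * ‖x - y‖ ^ (-γ - 2)) := by gcongr; exact hin _
        _ ≤ ‖h y‖ * (C1 * ‖z - y‖ ^ (-α)) := by rw [e]; gcongr
        _ = _ := by ring
    have mA : ∀ x : V, AEStronglyMeasurable
        (fun y => h y * (⟪x - y, v⟫ * ‖x - y‖ ^ (-γ - 2))) m := fun x =>
      hm.mul (Measurable.aestronglyMeasurable (by fun_prop))
    have first : ∀ x ∈ ball z ρ, ∫ y, h y * (⟪x - y, v⟫ * ‖x - y‖ ^ (-γ - 2)) ∂m = 0 := by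
      have := dir_deriv m (fun y => γ * (C1 * ‖h y * ‖z - y‖ ^ (-α)‖))
        ((hint.norm.const_mul C1).const_mul γ)
        (fun x y => h y * ‖x - y‖ ^ (-γ))
        (fun x y => -γ * (h y * (⟪x - y, v⟫ * ‖x - y‖ ^ (-γ - 2)))) (ball z ρ) isOpen_ball v
        (fun x hx => int_of_ge m h hm z ρ α hρ hα0.le hsupp hint γ hγ x hx)
        (fun x => (mA x).const_mul _) ?_ ?_ h0
      · intro x hx
        have h1 := this x hx
        rw [integral_const_mul] at h1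
        rcases mul_eq_zero.1 h1 with h2 | h2
        · linarith
        · exact h2
      · filter_upwards [bA] with y hy x hx
        rw [norm_mul, norm_neg, Real.norm_of_nonneg hγ0.le]
        gcongr
        exact hy x hx
      · filter_upwards [hsupp] with y hy x hx
        obtain ⟨hr, -⟩ := hb1 x hx y hy
        have hw : x - y ≠ 0 := norm_pos_iff.1 (by linarith)
        have := (hasDerivAt_norm_rpow (x - y) v hw γ).const_mul (h y)
        refine hda_congr this (fun t => ?_) (by ring)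
        have e1 : x + t • v - y = x - y + t • v := by abel
        rw [e1]
    have bB : ∀ᵐ y ∂m, ∀ x ∈ ball z ρ, ‖h y *
      (‖x - y‖ ^ (-γ - 2) + ⟪x - y, v⟫ * (-(γ + 2) * ⟪x - y, v⟫ * ‖x - y‖ ^ (-(γ + 2) - 2)))‖ ≤
        (γ + 3) * (C2 * ‖h y * ‖z - y‖ ^ (-α)‖) := by
      filter_upwards [hsupp] with y hy x hx
      obtain ⟨hr, hk⟩ := hb2 x hx y hy
      have hr0 : 0 < ‖x - y‖ := by linarith
      have e : ‖x - y‖ ^ 2 * ‖x - y‖ ^ (-(γ + 2) - 2) = ‖x - y‖ ^ (-(γ + 2)) := by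
        rw [← Real.rpow_natCast, ← Real.rpow_add hr0]; congr 1; push_cast; ring
      have e' : ‖x - y‖ ^ (-γ - 2) = ‖x - y‖ ^ (-(γ + 2)) := by congr 1; ring
      have hsq : ⟪x - y, v⟫ ^ 2 ≤ ‖x - y‖ ^ 2 := by
        rw [← sq_abs]; gcongr; exact hin _
      have hP : 0 ≤ ‖x - y‖ ^ (-(γ + 2) - 2) := by positivity
      have hQ : 0 ≤ ‖x - y‖ ^ (-(γ + 2)) := by positivity
      have hb : |‖x - y‖ ^ (-γ - 2) +
          ⟪x - y, v⟫ * (-(γ + 2) * ⟪x - y, v⟫ * ‖x - y‖ ^ (-(γ + 2) - 2))| ≤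
          (γ + 3) * ‖x - y‖ ^ (-(γ + 2)) := by
        have h1 : 0 ≤ ⟪x - y, v⟫ ^ 2 * ‖x - y‖ ^ (-(γ + 2) - 2) := by positivity
        have h2 : ⟪x - y, v⟫ ^ 2 * ‖x - y‖ ^ (-(γ + 2) - 2) ≤ ‖x - y‖ ^ (-(γ + 2)) := by
          rw [← e]; gcongr
        rw [e', abs_le]
        constructor <;> nlinarith
      rw [norm_mul, norm_mul, Real.norm_of_nonneg (by positivity : 0 ≤ ‖z - y‖ ^ (-α)),
        Real.norm_eq_abs (_ + _)]
      calc _ ≤ ‖h y‖ * ((γ + 3) * ‖x - y‖ ^ (-(γ + 2))) := by gcongr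
        _ ≤ ‖h y‖ * ((γ + 3) * (C2 * ‖z - y‖ ^ (-α))) := by gcongr
        _ = _ := by ring
    have mB : ∀ x : V, AEStronglyMeasurable (fun y => h y *
      (‖x - y‖ ^ (-γ - 2) + ⟪x - y, v⟫ * (-(γ + 2) * ⟪x - y, v⟫ * ‖x - y‖ ^ (-(γ + 2) - 2)))) m :=
      fun x => hm.mul (Measurable.aestronglyMeasurable (by fun_prop))
    have iD := (hint.norm.const_mul C2).const_mul (γ + 3)
    refine ⟨fun x hx => iD.mono' (mB x) (bB.mono fun y hy => hy x hx), ?_⟩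
    refine dir_deriv m _ iD (fun x y => h y * (⟪x - y, v⟫ * ‖x - y‖ ^ (-γ - 2))) _
      (ball z ρ) isOpen_ball v
      (fun x hx => (hint.norm.const_mul C1).mono' (mA x) (bA.mono fun y hy => hy x hx))
      mB bB ?_ first
    filter_upwards [hsupp] with y hy x hx
    obtain ⟨hr, -⟩ := hb1 x hx y hy
    have hw : x - y ≠ 0 := norm_pos_iff.1 (by linarith)
    have h1 := hasDerivAt_norm_rpow (x - y) v hw (γ + 2)
    have h2 : HasDerivAt (fun t : ℝ => ⟪x - y + t • v, v⟫) 1 0 := by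
      have : (fun t : ℝ => ⟪x - y + t • v, v⟫) = fun t => ⟪x - y, v⟫ + t := by
        funext t
        rw [inner_add_left, inner_smul_left, real_inner_self_eq_norm_sq, hv]; simp
      rw [this]
      simpa using (hasDerivAt_id (0 : ℝ)).const_add ⟪x - y, v⟫
    have h3 := (h2.mul h1).const_mul (h y)
    refine hda_congr h3 (fun t => ?_) ?_
    · have e1 : x + t • v - y = x - y + t • v := by abel
      have e2 : -γ - 2 = -(γ + 2) := by ring
      simp only [e1, e2, Pi.mul_apply]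
    · have e2 : -γ - 2 = -(γ + 2) := by ring
      simp [e2]
  intro x hx
  let b := stdOrthonormalBasis ℝ V
  have hsum : ∫ y, ∑ i, h y * (‖x - y‖ ^ (-γ - 2) +
      ⟪x - y, b i⟫ * (-(γ + 2) * ⟪x - y, b i⟫ * ‖x - y‖ ^ (-(γ + 2) - 2))) ∂m = 0 := by
    rw [integral_finsetSum _ (fun i _ => (second (b i) (b.orthonormal.1 i)).1 x hx)]
    exact Finset.sum_eq_zero fun i _ => (second (b i) (b.orthonormal.1 i)).2 x hx
  have hcong : ∫ y, ((Module.finrank ℝ V : ℝ) - (γ + 2)) * (h y * ‖x - y‖ ^ (-(γ + 2))) ∂m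
      = 0 := by
    refine Eq.trans ?_ hsum
    apply integral_congr_ae
    filter_upwards [hsupp] with y hy
    obtain ⟨hr, -⟩ := hb1 x hx y hy
    have hr0 : 0 < ‖x - y‖ := by linarith
    have e : ‖x - y‖ ^ 2 * ‖x - y‖ ^ (-(γ + 2) - 2) = ‖x - y‖ ^ (-(γ + 2)) := by
      rw [← Real.rpow_natCast, ← Real.rpow_add hr0]; congr 1; push_cast; ring
    have e' : ‖x - y‖ ^ (-γ - 2) = ‖x - y‖ ^ (-(γ + 2)) := by congr 1; ring
    have hs : ∑ i, ⟪x - y, b i⟫ ^ 2 = ‖x - y‖ ^ 2 := b.sum_sq_inner_left (x - y)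
    have : ∀ i, h y * (‖x - y‖ ^ (-γ - 2) +
      ⟪x - y, b i⟫ * (-(γ + 2) * ⟪x - y, b i⟫ * ‖x - y‖ ^ (-(γ + 2) - 2))) =
      h y * ‖x - y‖ ^ (-(γ + 2)) -
        (h y * (γ + 2) * ‖x - y‖ ^ (-(γ + 2) - 2)) * ⟪x - y, b i⟫ ^ 2 := by
      intro i; rw [e']; ring
    simp only [this]
    rw [Finset.sum_sub_distrib, Finset.sum_const, ← Finset.mul_sum, hs, Finset.card_univ,
      Fintype.card_fin, nsmul_eq_mul, ← e]
    ring
  rw [integral_const_mul] at hcong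
  rcases mul_eq_zero.1 hcong with h2 | h2
  · linarith
  · exact h2

lemma ucp_core (m : Measure V) [SigmaFinite m] (h : V → ℝ) (hm : AEStronglyMeasurable h m)
    (z : V) (ρ α : ℝ)
    (hρ : 0 < ρ) (hα : (Module.finrank ℝ V : ℝ) < α) (hsupp : ∀ᵐ y ∂m, 2 * ρ ≤ ‖z - y‖)
    (hint : Integrable (fun y => h y * ‖z - y‖ ^ (-α)) m)
    (h0 : ∀ x ∈ ball z ρ, ∫ y, h y * ‖x - y‖ ^ (-α) ∂m = 0) : h =ᵐ[m] 0 := by
  have hα0 : 0 < α := lt_of_le_of_lt (Nat.cast_nonneg _) hα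
  have hk : ∀ k : ℕ, ∀ x ∈ ball z ρ, ∫ y, h y * ‖x - y‖ ^ (-(α + 2 * k)) ∂m = 0 := by
    intro k
    induction k with
    | zero => simpa using h0
    | succ k ih =>
      have := lap_step m h hm z ρ α hρ hα hsupp hint (α + 2 * k)
        (by have : (0 : ℝ) ≤ k := Nat.cast_nonneg k; linarith) ih
      have e : α + 2 * ((k + 1 : ℕ) : ℝ) = α + 2 * k + 2 := by push_cast; ring
      rw [e]; exact this
  -- the profile function
  let ψ : ℝ → ℝ := fun t => (t⁻¹) ^ (α / 2) * Real.exp (-t⁻¹) * (if t = 0 then 0 else 1)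
  have hψ : ContinuousOn ψ (Icc 0 (ρ ^ 2)⁻¹) := by
    intro t ht
    rcases eq_or_lt_of_le ht.1 with h0t | h0t
    · subst h0t
      have h1 : Tendsto (fun x : ℝ => x ^ (α / 2) * Real.exp (-1 * x)) atTop (𝓝 0) :=
        tendsto_rpow_mul_exp_neg_mul_atTop_nhds_zero (α / 2) 1 one_pos
      have h2 := h1.comp tendsto_inv_nhdsGT_zero
      have h3 : ContinuousWithinAt ψ (Ioi 0) 0 := by
        have : ψ 0 = 0 := by simp [ψ]
        unfold ContinuousWithinAt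
        rw [this]
        refine h2.congr' ?_
        filter_upwards [self_mem_nhdsWithin] with t ht
        have : t ≠ 0 := ne_of_gt ht
        simp [ψ, this]
      exact (continuousWithinAt_Ioi_iff_Ici.1 h3).mono Icc_subset_Ici_self
    · apply ContinuousAt.continuousWithinAt
      have h1 : ContinuousAt (fun t : ℝ => (t⁻¹) ^ (α / 2) * Real.exp (-t⁻¹)) t := by
        have hi : ContinuousAt (fun t : ℝ => t⁻¹) t := continuousAt_inv₀ h0t.ne'
        exact (hi.rpow_const (Or.inr (by linarith))).mul (Real.continuous_exp.continuousAt.comp hi.neg)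
      refine h1.congr ?_
      filter_upwards [Ioi_mem_nhds h0t] with t ht
      have : t ≠ 0 := ne_of_gt ht
      simp [ψ, this]
  have hgauss : ∀ x ∈ ball z ρ, Integrable (fun y => h y * Real.exp (-‖x - y‖ ^ 2)) m ∧
      ∫ y, h y * Real.exp (-‖x - y‖ ^ 2) ∂m = 0 := by
    intro x hx
    obtain ⟨C1, hC1, hb1⟩ := ker_bound z ρ α α hρ hα0.le le_rfl
    have hI := int_of_ge m h hm z ρ α hρ hα0.le hsupp hint α le_rfl x hx
    have hrep : ∀ᵐ y ∂m, (‖x - y‖ ^ 2)⁻¹ ∈ Icc 0 (ρ ^ 2)⁻¹ ∧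
        h y * Real.exp (-‖x - y‖ ^ 2) = h y * ‖x - y‖ ^ (-α) * ψ (‖x - y‖ ^ 2)⁻¹ ∧
        ∀ k : ℕ, h y * ‖x - y‖ ^ (-(α + 2 * k)) = h y * ‖x - y‖ ^ (-α) * ((‖x - y‖ ^ 2)⁻¹) ^ k := by
      filter_upwards [hsupp] with y hy
      obtain ⟨hr, -⟩ := hb1 x hx y hy
      have hr0 : 0 < ‖x - y‖ := by linarith
      refine ⟨⟨by positivity, ?_⟩, ?_, ?_⟩
      · apply inv_anti₀ (by positivity); gcongr
      · have h1 : (‖x - y‖ ^ 2)⁻¹ ≠ 0 := by positivity
        simp only [ψ, inv_inv, h1, if_false, mul_one]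
        have h2 : (‖x - y‖ ^ 2) ^ (α / 2) = ‖x - y‖ ^ α := by
          rw [← Real.rpow_natCast, ← Real.rpow_mul hr0.le]; congr 1; push_cast; ring
        rw [h2, Real.rpow_neg hr0.le]
        have : ‖x - y‖ ^ α ≠ 0 := by positivity
        field_simp
      · intro k
        have h2 : ((‖x - y‖ ^ 2)⁻¹) ^ k = ‖x - y‖ ^ (-(2 * k : ℝ)) := by
          rw [Real.rpow_neg hr0.le, inv_pow, ← pow_mul]
          congr 1
          rw [← Real.rpow_natCast]; push_cast; rfl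
        rw [h2, mul_assoc, ← Real.rpow_add hr0]; congr 2; ring
    have hpoly : ∀ p : Polynomial ℝ,
        Integrable (fun y => h y * ‖x - y‖ ^ (-α) * p.eval (‖x - y‖ ^ 2)⁻¹) m ∧
        ∫ y, h y * ‖x - y‖ ^ (-α) * p.eval (‖x - y‖ ^ 2)⁻¹ ∂m = 0 := by
      intro p
      induction p using Polynomial.induction_on' with
      | add p q hp hq =>
        simp only [Polynomial.eval_add, mul_add]
        exact ⟨hp.1.add hq.1, by rw [integral_add hp.1 hq.1, hp.2, hq.2, add_zero]⟩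
      | monomial k a =>
        have h1 := int_of_ge m h hm z ρ α hρ hα0.le hsupp hint (α + 2 * k)
          (by have : (0 : ℝ) ≤ k := Nat.cast_nonneg k; linarith) x hx
        have h2 : (fun y => h y * ‖x - y‖ ^ (-α) *
            (Polynomial.monomial k a).eval (‖x - y‖ ^ 2)⁻¹) =ᵐ[m]
            fun y => a * (h y * ‖x - y‖ ^ (-(α + 2 * k))) := by
          filter_upwards [hrep] with y hy
          rw [hy.2.2 k, Polynomial.eval_monomial]; ring
        refine ⟨(h1.const_mul a).congr h2.symm, ?_⟩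
        rw [integral_congr_ae h2, integral_const_mul, hk k x hx, mul_zero]
    have hmeas : AEStronglyMeasurable (fun y => h y * Real.exp (-‖x - y‖ ^ 2)) m :=
      hm.mul (Measurable.aestronglyMeasurable (by fun_prop))
    have hclose : ∀ ε : ℝ, 0 < ε → ∃ p : Polynomial ℝ, ∀ᵐ y ∂m,
        ‖h y * Real.exp (-‖x - y‖ ^ 2) - h y * ‖x - y‖ ^ (-α) * p.eval (‖x - y‖ ^ 2)⁻¹‖ ≤
          ε * ‖h y * ‖x - y‖ ^ (-α)‖ := by
      intro ε hε
      obtain ⟨p, hp⟩ := exists_polynomial_near_of_continuousOn 0 (ρ ^ 2)⁻¹ ψ hψ ε hε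
      refine ⟨p, ?_⟩
      filter_upwards [hrep] with y hy
      rw [hy.2.1, ← mul_sub, norm_mul, mul_comm ε]
      gcongr
      rw [Real.norm_eq_abs, abs_sub_comm]
      exact (hp _ hy.1).le
    have hInt : Integrable (fun y => h y * Real.exp (-‖x - y‖ ^ 2)) m := by
      obtain ⟨p, hp⟩ := hclose 1 one_pos
      have h1 : Integrable (fun y => h y * Real.exp (-‖x - y‖ ^ 2) -
          h y * ‖x - y‖ ^ (-α) * p.eval (‖x - y‖ ^ 2)⁻¹) m :=
        (hI.norm.const_mul 1).mono' (hmeas.sub (hpoly p).1.1) hp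
      refine (h1.add (hpoly p).1).congr (Eventually.of_forall fun y => ?_)
      simp
    refine ⟨hInt, ?_⟩
    have hle : ∀ ε : ℝ, 0 < ε → ‖∫ y, h y * Real.exp (-‖x - y‖ ^ 2) ∂m‖ ≤
        ε * ∫ y, ‖h y * ‖x - y‖ ^ (-α)‖ ∂m := by
      intro ε hε
      obtain ⟨p, hp⟩ := hclose ε hε
      have h1 := norm_integral_le_of_norm_le (hI.norm.const_mul ε) hp
      rwa [integral_sub hInt (hpoly p).1, (hpoly p).2, sub_zero, integral_const_mul] at h1
    rw [← norm_le_zero_iff]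
    have hT : Tendsto (fun ε : ℝ => ε * ∫ y, ‖h y * ‖x - y‖ ^ (-α)‖ ∂m) (𝓝[>] 0) (𝓝 0) := by
      have : Continuous (fun ε : ℝ => ε * ∫ y, ‖h y * ‖x - y‖ ^ (-α)‖ ∂m) := by fun_prop
      simpa using (this.tendsto 0).mono_left nhdsWithin_le_nhds
    exact ge_of_tendsto hT (eventually_nhdsWithin_of_forall fun ε hε => hle ε hε)
  -- Laplace transform
  have hid : ∀ ξ y : V, h y * Real.exp (-‖z - y‖ ^ 2) * Real.exp ⟪y, ξ⟫ =
      Real.exp (‖ξ‖ ^ 2 / 4 + ⟪z, ξ⟫) * (h y * Real.exp (-‖z + (1 / 2 : ℝ) • ξ - y‖ ^ 2)) := by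
    intro ξ y
    have e : z + (1 / 2 : ℝ) • ξ - y = (z - y) + (1 / 2 : ℝ) • ξ := by abel
    have e2 : ‖z + (1 / 2 : ℝ) • ξ - y‖ ^ 2 = ‖z - y‖ ^ 2 + (⟪z, ξ⟫ - ⟪y, ξ⟫) + ‖ξ‖ ^ 2 / 4 := by
      rw [e, norm_add_sq_real, inner_smul_right, norm_smul, inner_sub_left]
      norm_num; ring
    rw [e2, mul_assoc, ← Real.exp_add, mul_left_comm, ← Real.exp_add]
    congr 2; ring
  have hfin := laplace_zero m (fun y => h y * Real.exp (-‖z - y‖ ^ 2)) ?_ ρ hρ ?_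
  · filter_upwards [hfin] with y hy
    simp only [Pi.zero_apply] at hy ⊢
    exact (mul_eq_zero.1 hy).resolve_right (Real.exp_pos _).ne'
  · intro ξ
    -- domination by the weight
    have hbd : ∃ C : ℝ, ∀ r : ℝ, 0 < r → r ^ α * Real.exp (-r ^ 2 + r * ‖ξ‖) ≤ C := by
      obtain ⟨N, hN⟩ := exists_nat_ge α
      refine ⟨Real.exp ((N + ‖ξ‖) ^ 2 / 4), fun r hr => ?_⟩
      have h1 : r ^ α ≤ Real.exp (N * r) := by
        have h2 : r ≤ Real.exp r := by linarith [Real.add_one_le_exp r]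
        calc r ^ α ≤ (Real.exp r) ^ α := by gcongr
          _ = Real.exp (r * α) := by rw [Real.exp_mul]
          _ ≤ Real.exp (N * r) := by
            apply Real.exp_le_exp.2
            rw [mul_comm]; gcongr
      calc r ^ α * Real.exp (-r ^ 2 + r * ‖ξ‖)
          ≤ Real.exp (N * r) * Real.exp (-r ^ 2 + r * ‖ξ‖) := by gcongr
        _ = Real.exp (N * r + (-r ^ 2 + r * ‖ξ‖)) := by rw [← Real.exp_add]
        _ ≤ _ := by gcongr; nlinarith [sq_nonneg (r - (N + ‖ξ‖) / 2)]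
    obtain ⟨C, hC⟩ := hbd
    refine (hint.norm.const_mul (Real.exp ⟪z, ξ⟫ * C)).mono' ?_ ?_
    · exact (hm.mul (Measurable.aestronglyMeasurable (by fun_prop))).mul
        (Measurable.aestronglyMeasurable (by fun_prop))
    · filter_upwards [hsupp] with y hy
      have hr : 0 < ‖z - y‖ := by linarith
      have h1 := hC _ hr
      have h2 : ⟪y, ξ⟫ ≤ ⟪z, ξ⟫ + ‖z - y‖ * ‖ξ‖ := by
        have h3 := abs_real_inner_le_norm (z - y) ξ
        rw [inner_sub_left] at h3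
        linarith [neg_abs_le (⟪z, ξ⟫ - ⟪y, ξ⟫)]
      have h4 : Real.exp (-‖z - y‖ ^ 2) * Real.exp ⟪y, ξ⟫ ≤
          Real.exp ⟪z, ξ⟫ * C * ‖z - y‖ ^ (-α) := by
        have h5 : 0 < ‖z - y‖ ^ α := by positivity
        rw [Real.rpow_neg hr.le, ← div_eq_mul_inv, le_div_iff₀ h5]
        calc Real.exp (-‖z - y‖ ^ 2) * Real.exp ⟪y, ξ⟫ * ‖z - y‖ ^ α
            ≤ Real.exp (-‖z - y‖ ^ 2) * Real.exp (⟪z, ξ⟫ + ‖z - y‖ * ‖ξ‖) * ‖z - y‖ ^ α := by
              gcongr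
          _ = Real.exp ⟪z, ξ⟫ * (‖z - y‖ ^ α * Real.exp (-‖z - y‖ ^ 2 + ‖z - y‖ * ‖ξ‖)) := by
              rw [Real.exp_add, Real.exp_add]; ring
          _ ≤ _ := by gcongr
      rw [mul_assoc, norm_mul, norm_mul (h y), Real.norm_of_nonneg (by positivity :
        0 ≤ Real.exp (-‖z - y‖ ^ 2) * Real.exp ⟪y, ξ⟫),
        Real.norm_of_nonneg (by positivity : 0 ≤ ‖z - y‖ ^ (-α))]
      calc _ ≤ ‖h y‖ * (Real.exp ⟪z, ξ⟫ * C * ‖z - y‖ ^ (-α)) := by gcongr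
        _ = _ := by ring
  · intro ξ hξ
    simp only [hid]
    rw [integral_const_mul, (hgauss _ ?_).2, mul_zero]
    rw [mem_ball, dist_eq_norm, add_sub_cancel_left, norm_smul]
    norm_num
    linarith [norm_nonneg ξ]

/-- Unique continuation, with the vanishing of the potential only almost everywhere. -/
lemma ucp (m : Measure V) [SigmaFinite m] [m.IsOpenPosMeasure] (h : V → ℝ)
    (hm : AEStronglyMeasurable h m) (z : V) (ρ α : ℝ)
    (hρ : 0 < ρ) (hα : (Module.finrank ℝ V : ℝ) < α)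
    (hsupp : ∀ᵐ y ∂m, y ∈ ball z (2 * ρ) → h y = 0)
    (hint : Integrable (fun y => h y * ‖z - y‖ ^ (-α)) m)
    (h0 : ∀ᵐ x ∂m, x ∈ ball z ρ → ∫ y, h y * ‖x - y‖ ^ (-α) ∂m = 0) : h =ᵐ[m] 0 := by
  have hα0 : 0 < α := lt_of_le_of_lt (Nat.cast_nonneg _) hα
  set S : Set V := (ball z (2 * ρ))ᶜ with hS
  have hSm : MeasurableSet S := measurableSet_ball.compl
  have hsupp' : ∀ᵐ y ∂(m.restrict S), 2 * ρ ≤ ‖z - y‖ := by
    filter_upwards [ae_restrict_mem hSm] with y hy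
    simp only [hS, mem_compl_iff, mem_ball, not_lt] at hy
    rwa [dist_comm, dist_eq_norm] at hy
  have hint' : Integrable (fun y => h y * ‖z - y‖ ^ (-α)) (m.restrict S) := hint.restrict
  have heq : ∀ x, ∫ y, h y * ‖x - y‖ ^ (-α) ∂(m.restrict S) = ∫ y, h y * ‖x - y‖ ^ (-α) ∂m := by
    intro x
    apply setIntegral_eq_integral_of_ae_compl_eq_zero
    filter_upwards [hsupp] with y hy hyS
    simp only [hS, mem_compl_iff, not_not] at hyS
    simp [hy hyS]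
  obtain ⟨C1, hC1, hb1⟩ := ker_bound z ρ α α hρ hα0.le le_rfl
  have hcont : ContinuousOn (fun x => ∫ y, h y * ‖x - y‖ ^ (-α) ∂(m.restrict S)) (ball z ρ) := by
    refine continuousOn_of_dominated (bound := fun y => C1 * ‖h y * ‖z - y‖ ^ (-α)‖) ?_ ?_
      (hint'.norm.const_mul C1) ?_
    · intro x hx
      exact hm.restrict.mul (Measurable.aestronglyMeasurable (by fun_prop))
    · intro x hx
      filter_upwards [hsupp'] with y hy
      have := (hb1 x hx y hy).2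
      rw [norm_mul, norm_mul, Real.norm_of_nonneg (by positivity : 0 ≤ ‖x - y‖ ^ (-α)),
        Real.norm_of_nonneg (by positivity : 0 ≤ ‖z - y‖ ^ (-α))]
      calc ‖h y‖ * ‖x - y‖ ^ (-α) ≤ ‖h y‖ * (C1 * ‖z - y‖ ^ (-α)) := by gcongr
        _ = _ := by ring
    · filter_upwards [hsupp'] with y hy
      refine continuousOn_const.mul (ContinuousOn.rpow_const (by fun_prop) ?_)
      intro x hx
      left
      have := (hb1 x hx y hy).1
      linarith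
  have hall : EqOn (fun x => ∫ y, h y * ‖x - y‖ ^ (-α) ∂(m.restrict S)) (fun _ => 0) (ball z ρ) := by
    refine Measure.eqOn_open_of_ae_eq (μ := m) ?_ isOpen_ball hcont continuousOn_const
    rw [EventuallyEq, ae_restrict_iff' measurableSet_ball]
    filter_upwards [h0] with x hx hxb
    rw [heq, hx hxb]
  have := ucp_core (m.restrict S) h hm.restrict z ρ α hρ hα hsupp' hint' (fun x hx => hall hx)
  rw [EventuallyEq, ae_restrict_iff' hSm] at this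
  filter_upwards [this, hsupp] with y h1 h2
  by_cases hy : y ∈ ball z (2 * ρ)
  · exact h2 hy
  · exact h1 hy

end Pool.Agent.H438Z.FC
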