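import Pool.Agent.H438Z.FC.Cross
import Pool.Agent.H438Z.FC.UCP

/-! The uniqueness theorem. -/

open MeasureTheory Metric Set Filter Topology
open scoped RealInnerProductSpace ContDiff

namespace Pool.Agent.H438Z.FC

variable {n : ℕ}

lemma Pot.meas {δ α M : ℝ} {b : E n → ℝ} (h : Pot δ α b M) :
    AEStronglyMeasurable (fun x => ∫ y, b y * kd δ α (x - y)) volume := by
  have hm : AEStronglyMeasurable (fun p : E n × E n => b p.2 * kd δ α (p.1 - p.2))
      (volume.prod volume) :=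
    h.1.comp_snd.mul
      ((kd_meas δ α).comp (measurable_fst.sub measurable_snd)).aestronglyMeasurable
  exact hm.integral_prod_right'

lemma pot_true {δ α : ℝ} {b : E n → ℝ} {D : Set (E n)} (h0 : ∀ᵐ y, y ∈ D → b y = 0) {x : E n}
    (hx : ∀ y, y ∉ D → δ ≤ ‖x - y‖) :
    (fun y => b y * kd δ α (x - y)) =ᵐ[volume] fun y => b y * ‖x - y‖ ^ (-α) := by
  filter_upwards [h0] with y hy
  by_cases hD : y ∈ D
  · simp [hy hD]
  · rw [kd_of_le (hx y hD)]

lemma diag {s a1 b1 a2 b2 δ M : ℝ} (hn : 1 ≤ n) (hs0 : 0 < s) (hs1 : s < 1) {g1 g2 : E n → ℝ}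
    (hg1 : Nice g1 a1 b1) (hg2 : Nice g2 a2 b2) {D A : Set (E n)} (hAD : A ⊆ D)
    (hfar : ∀ y, y ∉ D → ∀ x ∈ A, δ ≤ ‖x - y‖) (heq : ∀ᵐ z, z ∈ D → g1 z = g2 z)
    (hP : Pot δ ((n : ℝ) + 2 * s) (fun y => g1 y - g2 y) M)
    {f φ : E n → ℝ} (hf : IsTest A f) (hφ : IsTest A φ) :
    Bf s g1 f φ - Bf s g2 f φ = 2 * ∫ x, (g1 x * (f x * φ x)) *
      ∫ y, (g1 y - g2 y) * kd δ ((n : ℝ) + 2 * s) (x - y) := by
  have hfs := hf.inHs hn hs0 hs1
  have hφs := hφ.inHs hn hs0 hs1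
  have hi : Integrable (fun x => g1 x * (f x * φ x)) := hg1.mul_integrable (cs hfs.1 hφs.1).1
  rw [← sep_symm hi hP]
  unfold Bf
  rw [← integral_sub (cs (T_memLp hg1 hfs) (T_memLp hg1 hφs)).1
    (cs (T_memLp hg2 hfs) (T_memLp hg2 hφs)).1]
  apply integral_congr_ae
  filter_upwards [Measure.quasiMeasurePreserving_fst.ae heq,
    Measure.quasiMeasurePreserving_snd.ae heq] with p hp1 hp2
  rw [T_mul hg1, T_mul hg2]
  have key : ∀ x y : E n, y ∉ D → f y = 0 ∧ φ y = 0 ∧ f x * kd δ ((n : ℝ) + 2 * s) (x - y) =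
      f x * ‖x - y‖ ^ (-((n : ℝ) + 2 * s)) := by
    intro x y hy
    refine ⟨hf.zero_of fun h => hy (hAD h), hφ.zero_of fun h => hy (hAD h), ?_⟩
    by_cases hx : x ∈ A
    · rw [kd_of_le (hfar y hy x hx)]
    · simp [hf.zero_of hx]
  by_cases h1 : p.1 ∈ D
  · by_cases h2 : p.2 ∈ D
    · rw [← hp1 h1, ← hp2 h2]; ring
    · obtain ⟨k1, k2, k3⟩ := key p.1 p.2 h2
      rw [← hp1 h1, k1, k2]
      linear_combination (-(g1 p.1 * φ p.1 * (g1 p.2 - g2 p.2))) * k3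
  · obtain ⟨k1, k2, k3⟩ := key p.2 p.1 h1
    rw [norm_sub_rev p.2 p.1] at k3
    by_cases h2 : p.2 ∈ D
    · rw [← hp2 h2, k1, k2]
      linear_combination (-(g1 p.2 * φ p.2 * (g1 p.1 - g2 p.1))) * k3
    · obtain ⟨l1, l2, -⟩ := key p.1 p.2 h2
      rw [k1, k2, l1, l2]; ring

lemma uniq {s a1 b1 a2 b2 : ℝ} (hs0 : 0 < s) (hs1 : s < 1) {g1 g2 : E n → ℝ}
    (hg1 : Nice g1 a1 b1) (hg2 : Nice g2 a2 b2) {Ω W : Set (E n)} (hΩ : IsOpen Ω)
    (hbd : ∃ e : E n, ‖e‖ = 1 ∧ ∃ r : ℝ, ∀ x ∈ Ω, |⟪e, x⟫| ≤ r)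
    (hW : IsOpen W) (hne : W.Nonempty) (hWΩ : W ⊆ (closure Ω)ᶜ)
    (hDN : ∀ f φ : E n → ℝ, IsTest W f → IsTest W φ → ∀ u1 u2, Sol s Ω g1 f u1 →
      Sol s Ω g2 f u2 → Bf s g1 u1 φ = Bf s g2 u2 φ) : g1 =ᵐ[volume] g2 := by
  obtain ⟨e, he, -⟩ := id hbd
  have hn : 1 ≤ n := by
    rcases Nat.eq_zero_or_pos n with h | h
    · subst h
      have : e = 0 := Subsingleton.elim _ _
      simp [this] at he
    · exact h
  set α : ℝ := (n : ℝ) + 2 * s with hα
  have hαn : (n : ℝ) < α := by linarith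
  obtain ⟨x0, hx0⟩ := hne
  obtain ⟨R, hR, hRW⟩ := Metric.isOpen_iff.1 hW x0 hx0
  set ρ := R / 4 with hρdef
  have hρ : 0 < ρ := by positivity
  have hDW : ball x0 (2 * ρ) ⊆ W := (ball_subset_ball (by linarith)).trans hRW
  have hAD : ball x0 ρ ⊆ ball x0 (2 * ρ) := ball_subset_ball (by linarith)
  have hΩR : ∀ y ∈ Ω, y ∉ ball x0 R := fun y hy h => hWΩ (hRW h) (subset_closure hy)
  have htri : ∀ (r1 r2 : ℝ) (x y : E n), x ∈ ball x0 r1 → y ∉ ball x0 r2 → r2 - r1 ≤ ‖x - y‖ := by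
    intro r1 r2 x y hx hy
    rw [mem_ball] at hx hy
    have := dist_triangle_left y x0 x
    rw [← dist_eq_norm]; linarith [not_lt.1 hy]
  have hfarD : ∀ y ∈ Ω, ∀ x ∈ ball x0 (2 * ρ), ρ ≤ ‖x - y‖ := fun y hy x hx => by
    have := htri _ _ x y hx (hΩR y hy); linarith
  have hfarA : ∀ y, y ∉ ball x0 (2 * ρ) → ∀ x ∈ ball x0 ρ, ρ ≤ ‖x - y‖ := fun y hy x hx => by
    have := htri _ _ x y hx hy; linarith
  -- exterior determination
  have heq : ∀ᵐ z, z ∈ ball x0 (2 * ρ) → g1 z = g2 z := by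
    obtain ⟨C1, hC1⟩ := apriori hn hs0 hs1 hg1 hΩ hbd hρ hfarD
    obtain ⟨C2, hC2⟩ := apriori hn hs0 hs1 hg2 hΩ hbd hρ hfarD
    refine ext_det (C := C1 + C2) hs0 hg1 hg2 isOpen_ball e he fun f φ hf hφ => ?_
    have hfs := hf.inHs hn hs0 hs1
    have hφs := hφ.inHs hn hs0 hs1
    obtain ⟨u1, hu1⟩ := exists_sol hn hs0 hs1 hbd hg1 hfs
    obtain ⟨u2, hu2⟩ := exists_sol hn hs0 hs1 hbd hg2 hfs
    have h1 := hDN f φ (hf.mono hDW) (hφ.mono hDW) u1 u2 hu1 hu2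
    rw [hu1.split hg1 hfs hφs, hu2.split hg2 hfs hφs] at h1
    have h2 := abs_le.1 (hC1 f φ u1 hf hφ hu1)
    have h3 := abs_le.1 (hC2 f φ u2 hf hφ hu2)
    rw [abs_le]
    constructor <;> linarith [h2.1, h2.2, h3.1, h3.2]
  -- the fixed exterior datum
  let β : ContDiffBump x0 := ⟨ρ / 4, ρ / 2, by positivity, by linarith⟩
  have hf : IsTest (ball x0 ρ) β := by
    refine ⟨β.contDiff, β.hasCompactSupport, ?_⟩
    rw [β.tsupport_eq]
    exact closedBall_subset_ball (by simp only [β]; linarith)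
  have hfs := hf.inHs hn hs0 hs1
  obtain ⟨u1, hu1⟩ := exists_sol hn hs0 hs1 hbd hg1 hfs
  obtain ⟨u2, hu2⟩ := exists_sol hn hs0 hs1 hbd hg2 hfs
  have hz1 := hu1.2.1.ae_zero hΩ
  have hz2 := hu2.2.1.ae_zero hΩ
  have hL1 := hg1.mul_memLp hu1.2.1.1.1
  have hL2 := hg2.mul_memLp hu2.2.1.1.1
  have hP1 := pot_L2 hρ hαn hL1
  have hP2 := pot_L2 hρ hαn hL2
  have hPw := pot_L2 hρ hαn (hL1.sub hL2)
  have hPm := pot_bdd (b := fun y => g1 y - g2 y) (c := b1 + b2) hρ hαn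
    (hg1.1.sub hg2.1).aestronglyMeasurable
    (fun y => (abs_sub _ _).trans (add_le_add (hg1.abs_le y) (hg2.abs_le y)))
  set F1 : E n → ℝ := fun x => ∫ y, (g1 y * (u1 - β) y) * kd ρ α (x - y) with hF1
  set F2 : E n → ℝ := fun x => ∫ y, (g2 y * (u2 - β) y) * kd ρ α (x - y) with hF2
  set Fm : E n → ℝ := fun x => ∫ y, (g1 y - g2 y) * kd ρ α (x - y) with hFm
  have hH : ∀ᵐ x, x ∈ ball x0 ρ → g1 x * (β x * Fm x - (F1 x - F2 x)) = 0 := by
    refine isOpen_ball.ae_eq_zero_of_integral_contDiff_smul_eq_zero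
      (f := fun x => g1 x * (β x * Fm x - (F1 x - F2 x))) ?_ fun φ h1 h2 h3 => ?_
    · apply LocallyIntegrable.locallyIntegrableOn
      have k1 : MemLp g1 ⊤ volume := memLp_top_of_bound hg1.1.aestronglyMeasurable b1
        (Eventually.of_forall hg1.abs_le)
      have k2 : MemLp F1 ⊤ volume := memLp_top_of_bound hP1.meas _ (Eventually.of_forall hP1.abs_le)
      have k3 : MemLp F2 ⊤ volume := memLp_top_of_bound hP2.meas _ (Eventually.of_forall hP2.abs_le)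
      have k4 : MemLp Fm ⊤ volume := memLp_top_of_bound hPm.meas _ (Eventually.of_forall hPm.abs_le)
      have k5 : MemLp β ⊤ volume := β.continuous.memLp_of_hasCompactSupport β.hasCompactSupport
      have k6 : MemLp (fun x => β x * Fm x) ⊤ volume := k4.mul' k5
      have k7 : MemLp (fun x => g1 x * (β x * Fm x - (F1 x - F2 x))) ⊤ volume :=
        (k6.sub (k2.sub k3)).mul' k1
      exact k7.locallyIntegrable le_top
    · have hφ : IsTest (ball x0 ρ) φ := ⟨h1, h2, h3⟩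
      have hφs := hφ.inHs hn hs0 hs1
      have e0 := hDN β φ (hf.mono (hAD.trans hDW)) (hφ.mono (hAD.trans hDW)) u1 u2 hu1 hu2
      rw [hu1.split hg1 hfs hφs, hu2.split hg2 hfs hφs] at e0
      have hfar' : ∀ y ∈ Ω, ∀ x ∈ ball x0 ρ, ρ ≤ ‖x - y‖ := fun y hy x hx => hfarD y hy x (hAD hx)
      have e1 := cross hg1 (ball x0 ρ) (fun x hx => hφ.zero_of hx) (far_of_zero hfar' hz1) hρ
        hφ.integrable hP1
      have e2 := cross hg2 (ball x0 ρ) (fun x hx => hφ.zero_of hx) (far_of_zero hfar' hz2) hρ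
        hφ.integrable hP2
      have e3 := diag hn hs0 hs1 hg1 hg2 hAD hfarA heq hPm hf hφ
      have i1 := (sep_bound (hg1.mul_integrable hφ.integrable) hP1).1
      have i2 := (sep_bound (hg2.mul_integrable hφ.integrable) hP2).1
      have i3 := (sep_bound (hg1.mul_integrable (cs hfs.1 hφs.1).1) hPm).1
      have i12 : Integrable (fun x => g1 x * φ x * F1 x - g2 x * φ x * F2 x) := i1.sub i2
      have e4 : ∫ x, φ x • (g1 x * (β x * Fm x - (F1 x - F2 x))) =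
          ∫ x, (g1 x * (β x * φ x) * Fm x - (g1 x * φ x * F1 x - g2 x * φ x * F2 x)) := by
        apply integral_congr_ae
        filter_upwards [heq] with x hx
        by_cases hxA : x ∈ ball x0 ρ
        · rw [← hx (hAD hxA), smul_eq_mul]; ring
        · simp [hφ.zero_of hxA]
      rw [e4, integral_sub i3 i12, integral_sub i1 i2]
      linarith
  have hH' : ∀ᵐ x, x ∈ ball x0 ρ → β x * Fm x =
      ∫ y, (g1 y * (u1 - β) y - g2 y * (u2 - β) y) * kd ρ α (x - y) := by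
    filter_upwards [hH] with x hx hxA
    have h1 := (mul_eq_zero.1 (hx hxA)).resolve_left (hg1.pos x).ne'
    have h2 : ∫ y, (g1 y * (u1 - β) y - g2 y * (u2 - β) y) * kd ρ α (x - y) = F1 x - F2 x := by
      rw [hF1, hF2, ← integral_sub (hP1.2 x).1 (hP2.2 x).1]
      congr 1; funext y; ring
    rw [h2]; linarith
  have hαV : (Module.finrank ℝ (E n) : ℝ) < α := by simpa using hαn
  have hw0 : ∀ᵐ y, y ∈ ball x0 (2 * ρ) → g1 y * (u1 - β) y - g2 y * (u2 - β) y = 0 := by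
    filter_upwards [hz1, hz2] with y h1 h2 hy
    have : y ∉ Ω := fun h => hΩR y h (ball_subset_ball (by linarith) hy)
    rw [h1 this, h2 this]; ring
  have hw : (fun y => g1 y * (u1 - β) y - g2 y * (u2 - β) y) =ᵐ[volume] 0 := by
    set z := x0 + (3 * ρ / 4) • e with hz
    have hzd : dist z x0 = 3 * ρ / 4 := by
      rw [dist_eq_norm, hz, add_sub_cancel_left, norm_smul, he, mul_one,
        Real.norm_of_nonneg (by positivity)]
    have hsub : ∀ r r', r + 3 * ρ / 4 ≤ r' → ball z r ⊆ ball x0 r' := fun r r' h =>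
      ball_subset_ball' (by rw [hzd]; exact h)
    have hzA : z ∈ ball x0 ρ := by rw [mem_ball, hzd]; linarith
    refine ucp volume _ hPw.1 z (ρ / 8) α (by positivity) hαV ?_ ?_ ?_
    · filter_upwards [hw0] with y hy hyb
      exact hy (hsub _ _ (by linarith) hyb)
    · exact (hPw.2 z).1.congr (pot_true hw0 fun y hy => hfarA y hy z hzA)
    · filter_upwards [hH'] with x hx hxb
      have hxA : x ∈ ball x0 ρ := hsub _ _ (by linarith) hxb
      have h1 : β x = 0 := by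
        apply β.zero_of_le_dist
        have := dist_triangle_left z x0 x
        rw [mem_ball] at hxb
        simp only [β]; linarith
      rw [← integral_congr_ae (pot_true hw0 fun y hy => hfarA y hy x hxA), ← hx hxA, h1, zero_mul]
  have hm0 : ∀ᵐ y, y ∈ ball x0 (2 * ρ) → g1 y - g2 y = 0 := by
    filter_upwards [heq] with y hy hyb
    rw [hy hyb, sub_self]
  have hm : (fun y => g1 y - g2 y) =ᵐ[volume] 0 := by
    refine ucp volume _ hPm.1 x0 (ρ / 4) α (by positivity) hαV ?_ ?_ ?_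
    · filter_upwards [hm0] with y hy hyb
      exact hy (ball_subset_ball (by linarith) hyb)
    · exact (hPm.2 x0).1.congr (pot_true hm0 fun y hy => hfarA y hy x0 (mem_ball_self hρ))
    · filter_upwards [hH'] with x hx hxb
      have hxA : x ∈ ball x0 ρ := ball_subset_ball (by linarith) hxb
      have h1 : β x = 1 := β.one_of_mem_closedBall (ball_subset_closedBall hxb)
      have h2 := hx hxA
      have h3 : ∫ y, (g1 y * (u1 - β) y - g2 y * (u2 - β) y) * kd ρ α (x - y) = 0 := by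
        apply integral_eq_zero_of_ae
        filter_upwards [hw] with y hy
        simp only [Pi.zero_apply] at hy ⊢
        rw [hy, zero_mul]
      rw [h1, one_mul, h3] at h2
      rw [← integral_congr_ae (pot_true hm0 fun y hy => hfarA y hy x hxA)]
      exact h2
  filter_upwards [hm] with y hy
  simpa [sub_eq_zero] using hy

lemma cns_pos {s : ℝ} (hs0 : 0 < s) (hs1 : s < 1) : 0 < cns n s := by
  unfold cns
  have h1 : 0 < Real.Gamma (n / 2 + s) := Real.Gamma_pos_of_pos (by positivity)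
  have h2 : Real.Gamma (-s) ≠ 0 := by
    apply Real.Gamma_ne_zero
    intro m hm
    have h3 : s = m := neg_injective hm
    rcases Nat.eq_zero_or_pos m with h | h
    · subst h; simp at h3; linarith
    · have : (1 : ℝ) ≤ m := by exact_mod_cast h
      linarith
  have h4 : 0 < |Real.Gamma (-s)| := abs_pos.2 h2
  have := Real.pi_pos
  positivity

lemma exists_nice {γ : E n → ℝ} (h : UnifElliptic γ) :
    ∃ (g : E n → ℝ) (a b : ℝ), Nice g a b ∧ (∀ᵐ x, √(γ x) = g x) ∧ ∀ᵐ x, 0 ≤ γ x := by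
  obtain ⟨hm, a, b, ha, hab, hae⟩ := h
  refine ⟨fun x => max √a (min √b √(hm.mk γ x)), √a, √b, ⟨?_, Real.sqrt_pos.2 ha, fun x => ?_⟩,
    ?_, ?_⟩
  · have := hm.measurable_mk
    fun_prop
  · exact ⟨le_max_left _ _, max_le (Real.sqrt_le_sqrt hab.le) (min_le_left _ _)⟩
  · filter_upwards [hae, hm.ae_eq_mk] with x hx h2
    rw [← h2, min_eq_right (Real.sqrt_le_sqrt hx.2), max_eq_right (Real.sqrt_le_sqrt hx.1)]
  · filter_upwards [hae] with x hx
    linarith [hx.1]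

lemma bform_eq {s a b : ℝ} {γ g : E n → ℝ} (hg : Nice g a b) (h : ∀ᵐ x, √(γ x) = g x)
    (u v : E n → ℝ) : bform s γ u v = cns n s / 2 * Bf s g u v := by
  unfold bform Bf
  congr 1
  apply integral_congr_ae
  filter_upwards [Measure.quasiMeasurePreserving_fst.ae h,
    Measure.quasiMeasurePreserving_snd.ae h] with p h1 h2
  rw [T_mul hg, h1, h2, Real.rpow_neg (norm_nonneg _), div_eq_mul_inv]

theorem calderon (s : ℝ) (hs0 : 0 < s) (hs1 : s < 1) (Ω : Set (E n)) (hΩ : IsOpen Ω)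
    (hbd : ∃ e : E n, ‖e‖ = 1 ∧ ∃ r : ℝ, ∀ x ∈ Ω, |⟪e, x⟫| ≤ r)
    (γ₁ γ₂ : E n → ℝ) (h₁ : UnifElliptic γ₁) (h₂ : UnifElliptic γ₂)
    (W : Set (E n)) (hW : IsOpen W) (hne : W.Nonempty) (hWΩ : W ⊆ (closure Ω)ᶜ)
    (hDN : ∀ f g : E n → ℝ, IsTest W f → IsTest W g → ∀ u₁ u₂ : E n → ℝ,
      IsSol s Ω γ₁ f u₁ → IsSol s Ω γ₂ f u₂ → bform s γ₁ u₁ g = bform s γ₂ u₂ g) :
    γ₁ =ᵐ[volume] γ₂ := by
  obtain ⟨g1, a1, b1, hg1, e1, p1⟩ := exists_nice h₁
  obtain ⟨g2, a2, b2, hg2, e2, p2⟩ := exists_nice h₂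
  have hc : cns n s / 2 ≠ 0 := by have := cns_pos (n := n) hs0 hs1; positivity
  have key := uniq hs0 hs1 hg1 hg2 hΩ hbd hW hne hWΩ (fun f φ hf hφ u1 u2 hu1 hu2 => by
    have := hDN f φ hf hφ u1 u2
      ⟨hu1.1, hu1.2.1, fun ψ hψ => by rw [bform_eq hg1 e1, hu1.2.2 ψ hψ, mul_zero]⟩
      ⟨hu2.1, hu2.2.1, fun ψ hψ => by rw [bform_eq hg2 e2, hu2.2.2 ψ hψ, mul_zero]⟩
    rw [bform_eq hg1 e1, bform_eq hg2 e2] at this
    exact mul_left_cancel₀ hc this)
  filter_upwards [key, e1, e2, p1, p2] with x h1 h2 h3 h4 h5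
  rw [← Real.sq_sqrt h4, ← Real.sq_sqrt h5, h2, h3, h1]

end Pool.Agent.H438Z.FC
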